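import Pool.Agent.Helper52.NF.St

/-! Assembly: SEB and IND. -/

set_option autoImplicit false

namespace Pool.Agent.Helper52.NF

open Finset

theorem bip_of {ε N : Type} [DecidableEq N] {α β : ε → N} {E : Finset ε} {NA NB : Finset N}
    (hd : Disjoint NA NB) (h : ∀ e ∈ E, α e ∈ NA ∧ β e ∈ NB) : Bip α β E := by
  intro e he e' he' hab
  have h1 := (h e he).1
  have h2 := (h e' he').2
  rw [hab] at h1
  exact (Finset.disjoint_left.mp hd) h1 h2

theorem hSEB (h1 : StS1) (h2 : StS2) (h3a : StS3a) (h3b : StS3b) : StSEB := by
  intro ε N _ _ α β E J hbip hcons hJ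
  have hnl : ∀ e ∈ E, α e ≠ β e := fun e he => hbip e he e he
  obtain ⟨P, u, v, hP⟩ := h1 ε N α β E J hnl hcons.1 hJ
  obtain ⟨e₀, he₀J, he₀P, hat, hu1, hu2⟩ := h2 ε N α β E J P u v hnl hcons hP
  refine ⟨u, e₀, he₀J, hat, hu1, ?_⟩
  intro C hCE hCu hCN
  by_contra hneg
  push_neg at hneg
  obtain ⟨Q, z1, z2, g1, g2, hQE, hQu, hQ, hwQ, hQe, hg1E, hg1J, hg1, hg2E, hg2J, hg2⟩ :=
    h3a ε N α β E J u hbip hcons ⟨C, hCE, hCu, hCN, hneg⟩
  exact h3b ε N α β E J P Q u v z1 z2 e₀ g1 g2 hnl hcons hP he₀J he₀P hat hu2 hQE hQu hQ hwQ hQe
    hg1E hg1J hg1 hg2E hg2J hg2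

theorem rho_of_nb {ε N : Type} {α β : ε → N} {E : Finset ε} {x v : N} (h : v = x ∨ Nb α β E x v) :
    rho α β E x v = x := by
  unfold rho; rw [if_pos h]

theorem rho_of_not {ε N : Type} {α β : ε → N} {E : Finset ε} {x v : N}
    (h : ¬ (v = x ∨ Nb α β E x v)) : rho α β E x v = v := by
  unfold rho; rw [if_neg h]

theorem mem_offx {ε N : Type} [DecidableEq ε] [DecidableEq N] {α β : ε → N} {E : Finset ε} {x : N}
    {e : ε} : e ∈ offx α β E x ↔ e ∈ E ∧ ¬ At α β x e := by
  unfold offx; simp

/-- the boundary of the contracted join at an untouched node -/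
theorem sum_rho_single {ε N : Type} [DecidableEq ε] [DecidableEq N] [Fintype N] {α β : ε → N}
    {E : Finset ε} {x v : N} (f : N → ZMod 2) (h : ¬ (v = x ∨ Nb α β E x v)) :
    ∑ u ∈ Finset.univ.filter (fun u => rho α β E x u = v), f u = f v := by
  have : Finset.univ.filter (fun u => rho α β E x u = v) = {v} := by
    ext u
    simp only [Finset.mem_filter, Finset.mem_univ, true_and, Finset.mem_singleton]
    constructor
    · intro hu
      by_cases hc : u = x ∨ Nb α β E x u
      · rw [rho_of_nb hc] at hu
        exact absurd (Or.inl hu.symm) h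
      · rw [rho_of_not hc] at hu; exact hu
    · rintro rfl; exact rho_of_not h
  rw [this, Finset.sum_singleton]

theorem hIND (hS : StSEB) (hC : StCON) (hA : StIA) (hB : StIB) : StIND := by
  classical
  have key : ∀ n : ℕ, ∀ (ε N : Type) [DecidableEq ε] [DecidableEq N] [Fintype N] (α β : ε → N)
      (E J : Finset ε) (NA NB O : Finset N), J.card = n → Indh α β E J NA NB O → J.Nonempty →
      Indc α β E J NA NB O := by
    intro n
    induction n with
    | zero =>
      intro ε N _ _ _ α β E J NA NB O hn _ hJ
      exact absurd (Finset.card_eq_zero.mp hn) (Finset.nonempty_iff_ne_empty.mp hJ)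
    | succ n ih =>
      intro ε N _ _ _ α β E J NA NB O hn hI hJ
      obtain ⟨hdis, hO, hends, hcons, hO0⟩ := hI
      have hbip := bip_of hdis hends
      obtain ⟨x, e₀, he₀, hat, huni, hcon⟩ := hS ε N α β E J hbip hcons hJ
      obtain ⟨hcons', hbd'⟩ := hC ε N α β E J x e₀ hbip hcons he₀ hat huni hcon
      have hcard : (J.erase e₀).card = n := by
        rw [Finset.card_erase_of_mem he₀, hn]; rfl
      have he₀E := hcons.1 he₀
      have hbx : bd α β J x = 1 := by
        have hne : α e₀ ≠ β e₀ := hbip e₀ he₀E e₀ he₀E
        have h0 : bd α β (J.erase e₀) x = 0 := bd_of_notAt α β (fun e he hate =>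
          (Finset.ne_of_mem_erase he) (huni e (Finset.mem_of_mem_erase he) hate))
        have h1 := bd_erase α β he₀ x
        rw [h0] at h1
        rcases hat with ha | hb
        · rw [← ha, pt_self, pt_ne hne, add_zero] at h1
          rw [← ha]
          have := zz (1 : ZMod 2)
          linear_combination -h1 - this
        · rw [← hb, pt_self, pt_ne hne.symm, zero_add] at h1
          rw [← hb]
          have := zz (1 : ZMod 2)
          linear_combination -h1 - this
      -- x is in NA or in NB
      rcases hat with ha | hb
      · have hxA : x ∈ NA := ha ▸ (hends e₀ he₀E).1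
        have hxB : x ∉ NB := Finset.disjoint_left.mp hdis hxA
        refine hA ε N α β E J NA NB O x e₀ ⟨hdis, hO, hends, hcons, hO0⟩ he₀ (Or.inl ha) huni hxA
          hbd' ?_
        rcases (J.erase e₀).eq_empty_or_nonempty with hem | hne
        · exact Or.inl hem
        · right
          refine ih ε N _ _ _ _ _ _ _ hcard ?_ hne
          refine ⟨?_, ?_, ?_, hcons', ?_⟩
          · rw [Finset.disjoint_left]
            intro a ha1 ha2
            rcases Finset.mem_insert.mp ha2 with h | h
            · exact (Finset.ne_of_mem_erase ha1) h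
            · exact Finset.disjoint_left.mp hdis (Finset.mem_of_mem_erase ha1)
                (Finset.mem_filter.mp h).1
          · intro a ha1
            rw [Finset.mem_filter] at ha1
            exact Finset.mem_insert_of_mem (Finset.mem_filter.mpr ⟨hO ha1.1, ha1.2⟩)
          · intro e he
            obtain ⟨heE, heat⟩ := mem_offx.mp he
            obtain ⟨h1, h2⟩ := hends e heE
            have hae : α e ≠ x := fun h => heat (Or.inl h)
            have hnb : ¬ (α e = x ∨ Nb α β E x (α e)) := by
              rintro (h | ⟨g, hg, h | h⟩)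
              · exact hae h
              · exact Finset.disjoint_left.mp hdis h1 (h.2 ▸ (hends g hg).2)
              · exact hxB (h.2 ▸ (hends g hg).2)
            constructor
            · change rho α β E x (α e) ∈ NA.erase x
              rw [rho_of_not hnb]
              exact Finset.mem_erase.mpr ⟨hae, h1⟩
            · change rho α β E x (β e) ∈ _
              by_cases hc : β e = x ∨ Nb α β E x (β e)
              · rw [rho_of_nb hc]; exact Finset.mem_insert_self _ _
              · rw [rho_of_not hc]
                exact Finset.mem_insert_of_mem (Finset.mem_filter.mpr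
                  ⟨h2, fun h => hc (Or.inr h)⟩)
          · intro v hv
            rw [Finset.mem_filter] at hv
            have hnb : ¬ (v = x ∨ Nb α β E x v) := by
              rintro (h | h)
              · exact hxB (h ▸ hO hv.1)
              · exact hv.2 h
            rw [hbd' v, sum_rho_single _ hnb]
            exact hO0 v hv.1
      · have hxB : x ∈ NB := hb ▸ (hends e₀ he₀E).2
        have hxA : x ∉ NA := fun h => Finset.disjoint_left.mp hdis h hxB
        have hxO : x ∉ O := fun h => by rw [hO0 x h] at hbx; exact zero_ne_one hbx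
        refine hB ε N α β E J NA NB O x e₀ ⟨hdis, hO, hends, hcons, hO0⟩ he₀ (Or.inr hb) huni hxB
          hbd' ?_
        rcases (J.erase e₀).eq_empty_or_nonempty with hem | hne
        · exact Or.inl hem
        · right
          refine ih ε N _ _ _ _ _ _ _ hcard ?_ hne
          refine ⟨?_, ?_, ?_, hcons', ?_⟩
          · rw [Finset.disjoint_left]
            intro a ha1 ha2
            rcases Finset.mem_insert.mp ha1 with h | h
            · exact (Finset.ne_of_mem_erase ha2) h
            · exact Finset.disjoint_left.mp hdis (Finset.mem_filter.mp h).1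
                (Finset.mem_of_mem_erase ha2)
          · intro a ha1
            exact Finset.mem_erase.mpr ⟨fun h => hxO (h ▸ ha1), hO ha1⟩
          · intro e he
            obtain ⟨heE, heat⟩ := mem_offx.mp he
            obtain ⟨h1, h2⟩ := hends e heE
            have hbe : β e ≠ x := fun h => heat (Or.inr h)
            have hnb : ¬ (β e = x ∨ Nb α β E x (β e)) := by
              rintro (h | ⟨g, hg, h | h⟩)
              · exact hbe h
              · exact hxA (h.1 ▸ (hends g hg).1)
              · exact Finset.disjoint_left.mp hdis (h.1 ▸ (hends g hg).1) h2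
            constructor
            · change rho α β E x (α e) ∈ _
              by_cases hc : α e = x ∨ Nb α β E x (α e)
              · rw [rho_of_nb hc]; exact Finset.mem_insert_self _ _
              · rw [rho_of_not hc]
                exact Finset.mem_insert_of_mem (Finset.mem_filter.mpr
                  ⟨h1, fun h => hc (Or.inr h)⟩)
            · change rho α β E x (β e) ∈ NB.erase x
              rw [rho_of_not hnb]
              exact Finset.mem_erase.mpr ⟨hbe, h2⟩
          · intro v hv
            rw [hbd' v, sum_rho_single _ ?_]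
            · exact hO0 v hv
            · rintro (h | ⟨g, hg, h | h⟩)
              · exact hxO (h ▸ hv)
              · exact hxA (h.1 ▸ (hends g hg).1)
              · exact Finset.disjoint_left.mp hdis (h.1 ▸ (hends g hg).1) (hO hv)
  intro ε N _ _ _ α β E J NA NB O hI hJ
  exact key _ ε N α β E J NA NB O rfl hI hJ

end Pool.Agent.Helper52.NF
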