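import Mathlib

/-! Basic definitions for the project NF (T-joins, MP_dd34a0_co).
A finite multigraph is given by a type `ε` of edges, a type `N` of nodes and two end maps
`α β : ε → N`; an edge set is a `Finset ε`. -/

set_option autoImplicit false

namespace Pool.Agent.Helper52.NF

open Finset

section
variable {ε N : Type} [DecidableEq ε] [DecidableEq N]

/-- the point mass -/
def pt (a x : N) : ZMod 2 := if x = a then 1 else 0

/-- boundary (degree modulo 2) of an edge set -/
def bd (α β : ε → N) (J : Finset ε) (x : N) : ZMod 2 := ∑ e ∈ J, (pt (α e) x + pt (β e) x)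

/-- the weight `|P| - 2 |P ∩ J|` -/
def wt (J P : Finset ε) : ℤ := (P.card : ℤ) - 2 * ((P ∩ J).card : ℤ)

/-- `P` has exactly the two odd nodes `u` and `v` -/
def IsP (α β : ε → N) (P : Finset ε) (u v : N) : Prop :=
  u ≠ v ∧ ∀ x, bd α β P x = pt u x + pt v x

/-- conservativity: `J ⊆ E` contains at most half of every even edge set `C ⊆ E` -/
def Cons (α β : ε → N) (E J : Finset ε) : Prop :=
  J ⊆ E ∧ ∀ C ⊆ E, (∀ x, bd α β C x = 0) → 0 ≤ wt J C

/-- `v` is joined to `x` by an edge of `E` -/
def Nb (α β : ε → N) (E : Finset ε) (x v : N) : Prop :=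
  ∃ e ∈ E, (α e = x ∧ β e = v) ∨ (α e = v ∧ β e = x)

/-- the edge `e` is at the node `x` -/
def At (α β : ε → N) (x : N) (e : ε) : Prop := α e = x ∨ β e = x

/-- bipartite: no first end of an edge is a second end of an edge -/
def Bip (α β : ε → N) (E : Finset ε) : Prop := ∀ e ∈ E, ∀ e' ∈ E, α e ≠ β e'

/-- lexicographically minimal `(wt P, |P|)` among all `P ⊆ E` with exactly two odd nodes -/
def MinP (α β : ε → N) (E J P : Finset ε) (u v : N) : Prop :=
  P ⊆ E ∧ IsP α β P u v ∧ wt J P ≤ -1 ∧
  ∀ P' ⊆ E, ∀ u' v', IsP α β P' u' v' →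
    wt J P < wt J P' ∨ (wt J P = wt J P' ∧ P.card ≤ P'.card)

/-! ### basic lemmas -/

theorem zz (a : ZMod 2) : a + a = 0 := CharTwo.add_self_eq_zero a

theorem z01 (a : ZMod 2) : a = 0 ∨ a = 1 := by
  revert a; decide

theorem zne {a : ZMod 2} (h : a ≠ 0) : a = 1 := (z01 a).resolve_left h

theorem pt_self (a : N) : pt a a = 1 := by simp [pt]

theorem pt_ne {a x : N} (h : x ≠ a) : pt a x = 0 := by simp [pt, h]

theorem pt_comm (a x : N) : pt a x = pt x a := by
  unfold pt; by_cases h : x = a
  · simp [h]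
  · simp [h, Ne.symm h]

theorem bd_empty (α β : ε → N) (x : N) : bd α β ∅ x = 0 := by simp [bd]

theorem bd_singleton (α β : ε → N) (e : ε) (x : N) : bd α β {e} x = pt (α e) x + pt (β e) x := by
  simp [bd]

theorem bd_union (α β : ε → N) {A B : Finset ε} (h : Disjoint A B) (x : N) :
    bd α β (A ∪ B) x = bd α β A x + bd α β B x := by
  unfold bd; rw [Finset.sum_union h]

theorem bd_insert (α β : ε → N) {A : Finset ε} {e : ε} (h : e ∉ A) (x : N) :
    bd α β (insert e A) x = pt (α e) x + pt (β e) x + bd α β A x := by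
  unfold bd; rw [Finset.sum_insert h]

theorem bd_sdiff (α β : ε → N) {A B : Finset ε} (h : B ⊆ A) (x : N) :
    bd α β (A \ B) x = bd α β A x + bd α β B x := by
  have h1 := bd_union α β (Finset.sdiff_disjoint (s := B) (t := A)) x
  rw [Finset.sdiff_union_of_subset h] at h1
  rw [h1, add_assoc, zz, add_zero]

theorem bd_erase (α β : ε → N) {A : Finset ε} {e : ε} (h : e ∈ A) (x : N) :
    bd α β (A.erase e) x = bd α β A x + (pt (α e) x + pt (β e) x) := by
  have := bd_sdiff α β (Finset.singleton_subset_iff.mpr h) x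
  rw [bd_singleton, Finset.sdiff_singleton_eq_erase] at this
  exact this

theorem bd_symmDiff (α β : ε → N) (A B : Finset ε) (x : N) :
    bd α β (symmDiff A B) x = bd α β A x + bd α β B x := by
  have h1 : symmDiff A B = (A \ (A ∩ B)) ∪ (B \ (A ∩ B)) := by
    ext e; simp only [Finset.mem_symmDiff, Finset.mem_union, Finset.mem_sdiff, Finset.mem_inter]
    tauto
  have h2 : Disjoint (A \ (A ∩ B)) (B \ (A ∩ B)) := by
    rw [Finset.disjoint_left]; intro e; simp only [Finset.mem_sdiff, Finset.mem_inter]; tauto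
  rw [h1, bd_union α β h2, bd_sdiff α β Finset.inter_subset_left,
    bd_sdiff α β Finset.inter_subset_right]
  have := zz (bd α β (A ∩ B) x)
  linear_combination this

theorem wt_empty (J : Finset ε) : wt J ∅ = 0 := by simp [wt]

theorem wt_union (J : Finset ε) {A B : Finset ε} (h : Disjoint A B) :
    wt J (A ∪ B) = wt J A + wt J B := by
  unfold wt
  rw [Finset.card_union_of_disjoint h, Finset.union_inter_distrib_right,
    Finset.card_union_of_disjoint (h.mono Finset.inter_subset_left Finset.inter_subset_left)]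
  push_cast; ring

theorem wt_sdiff (J : Finset ε) {A B : Finset ε} (h : B ⊆ A) :
    wt J (A \ B) = wt J A - wt J B := by
  have h1 := wt_union J (Finset.sdiff_disjoint (s := B) (t := A))
  rw [Finset.sdiff_union_of_subset h] at h1
  linarith

theorem wt_symmDiff (J A B : Finset ε) :
    wt J (symmDiff A B) = wt J A + wt J B - 2 * wt J (A ∩ B) := by
  have h1 : symmDiff A B = (A \ (A ∩ B)) ∪ (B \ (A ∩ B)) := by
    ext e; simp only [Finset.mem_symmDiff, Finset.mem_union, Finset.mem_sdiff, Finset.mem_inter]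
    tauto
  have h2 : Disjoint (A \ (A ∩ B)) (B \ (A ∩ B)) := by
    rw [Finset.disjoint_left]; intro e; simp only [Finset.mem_sdiff, Finset.mem_inter]; tauto
  rw [h1, wt_union J h2, wt_sdiff J Finset.inter_subset_left,
    wt_sdiff J Finset.inter_subset_right]
  ring

theorem wt_singleton_mem {J : Finset ε} {e : ε} (h : e ∈ J) : wt J {e} = -1 := by
  simp [wt, Finset.singleton_inter_of_mem h]

theorem wt_singleton_notMem {J : Finset ε} {e : ε} (h : e ∉ J) : wt J {e} = 1 := by
  simp [wt, Finset.singleton_inter_of_notMem h]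

theorem wt_nonneg_iff (J C : Finset ε) : 0 ≤ wt J C ↔ 2 * (C ∩ J).card ≤ C.card := by
  unfold wt; omega

/-- an edge set without edges at `x` has even degree at `x` -/
theorem bd_of_notAt (α β : ε → N) {A : Finset ε} {x : N} (h : ∀ e ∈ A, ¬ At α β x e) :
    bd α β A x = 0 := by
  unfold bd
  refine Finset.sum_eq_zero (fun e he => ?_)
  have := h e he
  unfold At at this
  push_neg at this
  rw [pt_ne (Ne.symm this.1), pt_ne (Ne.symm this.2), add_zero]

/-- an odd node is touched -/
theorem exists_at (α β : ε → N) {A : Finset ε} {x : N} (h : bd α β A x ≠ 0) :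
    ∃ e ∈ A, (α e = x ∧ β e ≠ x) ∨ (α e ≠ x ∧ β e = x) := by
  by_contra hc
  push_neg at hc
  apply h
  unfold bd
  refine Finset.sum_eq_zero (fun e he => ?_)
  obtain ⟨h1, h2⟩ := hc e he
  by_cases ha : α e = x
  · rw [ha, h1 ha]; exact zz _
  · rw [pt_ne (Ne.symm ha), pt_ne (Ne.symm (h2 ha)), add_zero]

end

end Pool.Agent.Helper52.NF
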