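import Pool.Agent.Helper52.NF.St3

/-! Project NF (MP_dd34a0_co), module EHP. -/

set_option autoImplicit false

namespace Pool.Agent.Helper52.NF.EHPcopy

open Pool.Agent.Helper52.NF Finset

section
open Classical

private theorem ehp_sum {A B : Type} [Fintype B] (I : A → B → Prop) (T : Finset A) (U : Finset B)
    (g : A → B → ℕ) :
    ∑ p ∈ (T ×ˢ U).filter (fun p => p.1 ∈ Dz I T p.2), g p.1 p.2 =
      ∑ z ∈ U, ∑ f ∈ Dz I T z, g f z := by
  rw [Finset.sum_filter, Finset.sum_product_right]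
  refine Finset.sum_congr rfl fun z _ => ?_
  rw [← Finset.sum_filter]
  refine Finset.sum_congr ?_ fun _ _ => rfl
  ext f
  simp only [Dz, Finset.mem_filter]
  tauto

private theorem ehp_mem {A B : Type} (I : A → B → Prop) (T : Finset A) (z : B) (f : A)
    (h : f ∈ Dz I T z) : I f z := (Finset.mem_filter.1 h).2

private theorem ehp_gen (hE : StEUL) {ε A B : Type} [Fintype ε] [Fintype B] (α : ε → A) (β : ε → B)
    (hα : Function.Surjective α) (F : Finset (ε → ZMod 2)) (hF1 : ∀ x ∈ F, Cyc α β x)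
    (hF2 : ∀ x, Cyc α β x → x ∈ Submodule.span (ZMod 2) (F : Set (ε → ZMod 2)))
    (hF3 : ∀ e, (F.filter (fun x => x e ≠ 0)).card ≤ 2) (T : Finset A) (hT : T.Nonempty) :
    EH (fun f z => ∃ d, α d = f ∧ β d = z) T := by
  intro U w hw
  set I : A → B → Prop := fun f z => ∃ d, α d = f ∧ β d = z with hI
  have hne : Nonempty ε := by
    obtain ⟨f, _⟩ := hT
    obtain ⟨d, _⟩ := hα f
    exact ⟨d⟩
  have hch : ∀ p : A × B, ∃ d : ε, I p.1 p.2 → α d = p.1 ∧ β d = p.2 := by
    intro p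
    by_cases h : I p.1 p.2
    · obtain ⟨d, hd⟩ := h
      exact ⟨d, fun _ => hd⟩
    · exact ⟨Classical.arbitrary _, fun h' => absurd h' h⟩
  choose δ hδ using hch
  set P : Finset (A × B) := (T ×ˢ U).filter (fun p => p.1 ∈ Dz I T p.2) with hPdef
  have hPm : ∀ p ∈ P, p.1 ∈ T ∧ p.2 ∈ U ∧ p.1 ∈ Dz I T p.2 ∧ I p.1 p.2 := by
    intro p hp
    rw [hPdef, Finset.mem_filter, Finset.mem_product] at hp
    refine ⟨hp.1.1, hp.1.2, hp.2, ?_⟩
    exact ehp_mem I T _ _ hp.2
  have hδP : ∀ p ∈ P, (α (δ p), β (δ p)) = p := by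
    intro p hp
    obtain ⟨h1, h2⟩ := hδ p (hPm p hp).2.2.2
    exact Prod.ext h1 h2
  have hinj : Set.InjOn δ P := by
    intro p hp q hq h
    rw [← hδP p hp, ← hδP q hq, h]
  set E₁ : Finset ε := P.image δ with hE1
  have hEm : ∀ e ∈ E₁, (α e, β e) ∈ P ∧ δ (α e, β e) = e := by
    intro e he
    obtain ⟨p, hp, rfl⟩ := Finset.mem_image.1 he
    rw [hδP p hp]
    exact ⟨hp, rfl⟩
  have hinj' : Set.InjOn (fun e : ε => (α e, β e)) (E₁ : Set ε) := by
    intro e he e' he' h
    have h1 := (hEm e he).2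
    have h2 := (hEm e' he').2
    simp only at h
    rw [← h1, ← h2, h]
  have hmain := hE ε A B α β F hF1 hF2 hF3 E₁ T U (fun d => w (α d) (β d)) 12 hT
    (fun e he => ⟨(hPm _ (hEm e he).1).1, (hPm _ (hEm e he).1).2.1⟩) (by
      intro C hC hCne hCa hCb
      have hCinj : Set.InjOn (fun e : ε => (α e, β e)) (C : Set ε) :=
        hinj'.mono (by exact_mod_cast hC)
      have h := hw (C.image fun e => (α e, β e)) ?_ (hCne.image _) ?_ ?_
      · rwa [Finset.sum_image hCinj] at h
      · intro p hp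
        obtain ⟨e, he, rfl⟩ := Finset.mem_image.1 hp
        have := hPm _ (hEm e (hC he)).1
        exact ⟨this.2.1, this.2.2.1⟩
      · intro f
        rw [Finset.filter_image, Finset.card_image_of_injOn (hCinj.mono (by
          intro e he
          exact (Finset.mem_filter.1 he).1))]
        exact hCa f
      · intro z
        rw [Finset.filter_image, Finset.card_image_of_injOn (hCinj.mono (by
          intro e he
          exact (Finset.mem_filter.1 he).1))]
        exact hCb z)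
  have h1 : E₁.card = ∑ z ∈ U, (Dz I T z).card := by
    rw [hE1, Finset.card_image_of_injOn hinj, Finset.card_eq_sum_ones, hPdef,
      ehp_sum I T U (fun _ _ => 1)]
    exact Finset.sum_congr rfl fun z _ => (Finset.card_eq_sum_ones _).symm
  have h2 : ∑ e ∈ E₁, w (α e) (β e) = ∑ z ∈ U, ∑ f ∈ Dz I T z, w f z := by
    rw [hE1, Finset.sum_image hinj, ← ehp_sum I T U w, ← hPdef]
    refine Finset.sum_congr rfl fun p hp => ?_
    obtain ⟨h1, h2⟩ := hδ p (hPm p hp).2.2.2
    rw [h1, h2]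
  rw [h1, h2] at hmain
  exact hmain

theorem cyc_inst {ε A B : Type} [Fintype ε] (i j : DecidableEq A) (i' j' : DecidableEq B)
    (α : ε → A) (β : ε → B) (x : ε → ZMod 2) (h : @Cyc ε A B _ i i' α β x) :
    @Cyc ε A B _ j j' α β x := by
  have h1 : i = j := Subsingleton.elim _ _
  have h2 : i' = j' := Subsingleton.elim _ _
  subst h1
  subst h2
  exact h

theorem hEHP (hE : StEUL) (hR : StRSF) : StEHP := by
  intro V _ G rot φ hP T hT
  obtain ⟨F, hF1, hF2, hF3⟩ := hR V G rot φ hP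
  refine ehp_gen hE (fc φ) (fun d : G.Dart => d.fst) (fun f => ?_) F ?_ ?_ hF3 T hT
  · obtain ⟨d, hd⟩ := Quotient.exists_rep f
    exact ⟨d, hd⟩
  · intro x hx
    exact cyc_inst _ _ _ _ _ _ _ (hF1 x hx)
  · intro x hx
    apply hF2
    exact cyc_inst _ _ _ _ _ _ _ hx

end

end Pool.Agent.Helper52.NF.EHPcopy
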