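import Pool.Agent.Helper52.NF.St3

set_option autoImplicit false

namespace Pool.Agent.Helper52.NF

open Finset Classical

theorem hSUM : StSUM := by
  intro V _ G φ σ
  have h1 : ∑ x, ft φ σ x = ∑ f : Fc φ, fs φ σ f := by
    rw [Fintype.sum_sum_type]
    simp [ft]
  have h2 : ∑ f : Fc φ, fs φ σ f = ∑ d : G.Dart, σ d.edge := by
    unfold fs
    exact Finset.sum_fiberwise (Finset.univ : Finset G.Dart) (fun d => fc φ d)
      (fun d => σ d.edge)
  rw [h1, h2]
  refine Finset.sum_involution (fun d _ => d.symm) ?_ ?_ ?_ ?_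
  · intro d _
    rw [SimpleGraph.Dart.edge_symm]
    exact zz _
  · intro d _ _
    exact SimpleGraph.Dart.symm_ne d
  · intro d _
    exact Finset.mem_univ _
  · intro d _
    exact SimpleGraph.Dart.symm_symm d

end Pool.Agent.Helper52.NF
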