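import Pool.Agent.Helper52.NF.Basic

/-! Statements of the modules, part 1: joins in bipartite multigraphs.
Every statement is a closed proposition; prove `theorem mod_X : StX`. -/

set_option autoImplicit false

namespace Pool.Agent.Helper52.NF

open Finset

/-- MODULE L1 (path from an odd node). Induction on `P.card`, `u` general.
By `exists_at` take `e ∈ P` with exactly one end `u`; let `z ≠ u` be the other end.
If `bd P z = 1` take `P₁ = {e}`, `v = z` (`bd_singleton`).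
If `bd P z = 0`: in `P' = P.erase e` (`bd_erase`) the node `z` is odd and `u` is even; induction for
`P', z` gives `P₁' ⊆ P'` and `v ≠ z` with `bd P' v = 1` and `bd P₁' = pt z + pt v`; `v ≠ u` as
`bd P' u = 0`; so `bd P v = bd P' v = 1`; take `P₁ = insert e P₁'`. -/
def StL1 : Prop :=
  ∀ (ε N : Type) [DecidableEq ε] [DecidableEq N] (α β : ε → N) (P : Finset ε) (u : N),
    bd α β P u = 1 → ∃ P₁ ⊆ P, ∃ v, v ≠ u ∧ bd α β P v = 1 ∧
      ∀ x, bd α β P₁ x = pt u x + pt v x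

/-- MODULE L2. Let `Pu` be the set of edges of `P` at `u` and `P' = P \ Pu`. If some `e ∈ Pu` has
other end `v`, take `P₁ = {e}`. Otherwise no edge of `Pu` touches `v`, so `bd P' v = bd P v = 1`
(`v ≠ u`; use `bd_sdiff`, `bd_of_notAt`); apply `StL1` to `P'` and `v`: `P₁' ⊆ P'`, `w ≠ v`,
`bd P' w = 1`, `bd P₁' = pt v + pt w`. `w ≠ u` as no edge of `P'` is at `u`. Since
`bd P w = 0` (`w ≠ u, v`), `bd Pu w = 1`, so by `exists_at` some `e ∈ Pu` has `w` as an end, and its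
other end is `u` (it is an edge at `u` and `w ≠ u`). Take `P₁ = insert e P₁'`. The only edge of `P₁`
at `u` is `e`. (No loops is needed to know that every edge at `u` has another end `≠ u`.) -/
def StL2 : Prop :=
  ∀ (ε N : Type) [DecidableEq ε] [DecidableEq N] (α β : ε → N) (P : Finset ε) (u v : N),
    (∀ e ∈ P, α e ≠ β e) → IsP α β P u v →
    ∃ P₁ ⊆ P, IsP α β P₁ u v ∧ ∃ e₀ ∈ P₁, At α β u e₀ ∧ ∀ e ∈ P₁, At α β u e → e = e₀

/-- MODULE PAR (parity). Let `A = E.image α`. For `e ∈ Q`: `α e ∈ A`, and `β e ∉ A` by `Bip`. So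
`(Q.card : ZMod 2) = ∑ v ∈ A, bd Q v` (exchange the sums; `∑ v ∈ A, pt (α e) v = 1`,
`∑ v ∈ A, pt (β e) v = 0`) `= [z1 ∈ A] + [z2 ∈ A]`. Let `e1`, `e2` be the edges of `Nb x z1`,
`Nb x z2`. If `α e1 = x` then `z1 = β e1 ∉ A`, and `α e2 = x` too (otherwise `β e2 = x = α e1`,
against `Bip`), so `z2 ∉ A`. If `β e1 = x` then `z1 = α e1 ∈ A`, and likewise `z2 ∈ A`. In both cases
the sum is `0`. -/
def StPAR : Prop :=
  ∀ (ε N : Type) [DecidableEq ε] [DecidableEq N] (α β : ε → N) (E Q : Finset ε) (x z1 z2 : N),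
    Bip α β E → Q ⊆ E → IsP α β Q z1 z2 → Nb α β E x z1 → Nb α β E x z2 → Even Q.card

/-- MODULE SPL (splitting a path at a node `y` on it). `Q` has odd nodes `z1 ≠ z2`, contains no
nonempty even subset, and some edge of `Q` is at `y`.
If `y = z1` take `Q1 = ∅` (`pt z1 + pt z1 = 0`, `zz`). If `y = z2` take `Q1 = Q`.
Otherwise `bd Q y = 0` and some `e ∈ Q` is at `y`; let `y' ≠ y` be its other end (no loops), and
`Q' = Q.erase e`; `bd Q' y = 1`. By `StL1` for `Q'` and `y`: `Q'' ⊆ Q'`, `s ≠ y`, `bd Q' s = 1`,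
`bd Q'' = pt y + pt s`. If `s = y'` then `insert e Q''` is a nonempty even subset of `Q`:
contradiction. So `s ≠ y, y'` and `1 = bd Q' s = bd Q s`, so `s = z1` or `s = z2`. If `s = z1` take
`Q1 = Q''`. If `s = z2` take `Q1 = Q \ Q''` (`bd_sdiff`). -/
def StSPL : Prop :=
  ∀ (ε N : Type) [DecidableEq ε] [DecidableEq N] (α β : ε → N) (Q : Finset ε) (z1 z2 y : N),
    (∀ e ∈ Q, α e ≠ β e) → IsP α β Q z1 z2 →
    (∀ Q' ⊆ Q, (∀ x, bd α β Q' x = 0) → Q' = ∅) →
    (∃ e ∈ Q, At α β y e) →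
    ∃ Q1 ⊆ Q, ∀ x, bd α β Q1 x = pt z1 x + pt y x

/-- MODULE S1 (existence of a minimal `P`). The finite set of all `P ∈ E.powerset` for which
`∃ u v, IsP α β P u v` is nonempty: it contains `{e}` for `e ∈ J` (no loops), with `wt J {e} = -1`.
Choose in it a `P` minimizing the integer `wt J P * (E.card + 1) + P.card` (for instance
`Finset.exists_min_image`); as `0 ≤ P.card ≤ E.card` this is the lexicographic minimum of
`(wt J P, P.card)`. Comparing with `{e}` gives `wt J P ≤ -1`. -/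
def StS1 : Prop :=
  ∀ (ε N : Type) [DecidableEq ε] [DecidableEq N] (α β : ε → N) (E J : Finset ε),
    (∀ e ∈ E, α e ≠ β e) → J ⊆ E → J.Nonempty → ∃ P u v, MinP α β E J P u v

/-- MODULE S0 (a minimal `P` has no nonempty even subset). For an even `P' ⊆ P`: `P \ P'` has the
same boundary (`bd_sdiff`), `wt J (P \ P') = wt J P - wt J P' ≤ wt J P` by `Cons`; minimality gives
`P.card ≤ (P \ P').card`, so `P' = ∅`. -/
def StS0 : Prop :=
  ∀ (ε N : Type) [DecidableEq ε] [DecidableEq N] (α β : ε → N) (E J P : Finset ε) (u v : N),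
    Cons α β E J → MinP α β E J P u v → ∀ P' ⊆ P, (∀ x, bd α β P' x = 0) → P' = ∅

/-- MODULE S2 (at the end `u` of a minimal `P` there is exactly one edge of `P` and exactly one edge
of `J`, the same one). By `StL2` there is `P₁ ⊆ P` with the same boundary and exactly one edge `e₁`
at `u`; `P \ P₁` is even, so empty by `StS0`; hence `P₁ = P`. Let `z` be the other end of `e₁`.
(a) `e₁ ∈ J`: if not, `P' = P.erase e₁` has `bd P' = pt z + pt v` and
`wt J P' = wt J P - 1`. If `z ≠ v` this contradicts minimality. If `z = v`, `P'` is even, so empty by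
`StS0`, `P = {e₁}` and `wt J P = 1`, against `wt J P ≤ -1`.
(b) if `e ∈ J`, `e ∉ P`, is at `u`, with other end `z'`: `wt J (insert e P) = wt J P - 1` and
`bd (insert e P) = pt v + pt z'`; if `z' ≠ v` this contradicts minimality; if `z' = v` the set
`insert e P ⊆ E` is even with negative weight, against `Cons`. So every edge of `J` at `u` is in `P`,
hence equals `e₁`. -/
def StS2 : Prop :=
  ∀ (ε N : Type) [DecidableEq ε] [DecidableEq N] (α β : ε → N) (E J P : Finset ε) (u v : N),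
    (∀ e ∈ E, α e ≠ β e) → Cons α β E J → MinP α β E J P u v →
    ∃ e₀ ∈ J, e₀ ∈ P ∧ At α β u e₀ ∧ (∀ e ∈ J, At α β u e → e = e₀) ∧
      (∀ e ∈ P, At α β u e → e = e₀)

/-- `C` is an edge set of `E` without edges at `u` whose odd nodes are neighbours of `u` and whose
weight is negative. -/
def Bad {ε N : Type} [DecidableEq ε] [DecidableEq N] (α β : ε → N) (E J : Finset ε) (u : N)
    (C : Finset ε) : Prop :=
  C ⊆ E ∧ (∀ e ∈ C, ¬ At α β u e) ∧ (∀ z, bd α β C z ≠ 0 → Nb α β E u z) ∧ wt J C < 0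

/-- MODULE S3a. Take a bad `C` of minimal cardinality. It is not even (`Cons`), so `bd C z1 = 1` for
some `z1`; by `StL1` there are `C₁ ⊆ C` and `z2 ≠ z1` with `bd C z2 = 1`, `IsP C₁ z1 z2`.
`bd (C \ C₁) = bd C + pt z1 + pt z2`, so its odd nodes are odd nodes of `C`;
`wt C = wt C₁ + wt (C \ C₁)`. `wt (C \ C₁) < 0` would make `C \ C₁` bad, and smaller as `C₁ ≠ ∅`. So
`wt (C \ C₁) ≥ 0`, `wt C₁ < 0`, `C₁` is bad, and by minimality `C₁ = C`. Take `Q = C`: `IsP Q z1 z2`.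
If `Q' ⊆ Q` is even and nonempty, `Q \ Q'` has the same boundary and
`wt (Q \ Q') = wt Q - wt Q' ≤ wt Q < 0` (`Cons`), it is bad and smaller: contradiction.
Let `g1, g2 ∈ E` be edges joining `u` to `z1`, `z2` (`Nb`). `Even Q.card` by `StPAR`, so `wt J Q` is even
and `wt J Q ≤ -2`. `g1 ≠ g2` (`z1 ≠ z2`, no loops), `g1, g2 ∉ Q` (they are at `u`). The set
`Q ∪ {g1, g2} ⊆ E` is even, so `0 ≤ wt Q + wt {g1} + wt {g2}`, and `wt {g} ≤ 1` with equality only for
`g ∉ J`. Hence `wt Q = -2` and `g1, g2 ∉ J`. -/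
def StS3a : Prop :=
  ∀ (ε N : Type) [DecidableEq ε] [DecidableEq N] (α β : ε → N) (E J : Finset ε) (u : N),
    Bip α β E → Cons α β E J → (∃ C, Bad α β E J u C) →
    ∃ (Q : Finset ε) (z1 z2 : N) (g1 g2 : ε), Q ⊆ E ∧ (∀ e ∈ Q, ¬ At α β u e) ∧
      IsP α β Q z1 z2 ∧ wt J Q = -2 ∧ (∀ Q' ⊆ Q, (∀ x, bd α β Q' x = 0) → Q' = ∅) ∧
      g1 ∈ E ∧ g1 ∉ J ∧ ((α g1 = u ∧ β g1 = z1) ∨ (α g1 = z1 ∧ β g1 = u)) ∧
      g2 ∈ E ∧ g2 ∉ J ∧ ((α g2 = u ∧ β g2 = z2) ∨ (α g2 = z2 ∧ β g2 = u))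

/-- MODULE S3b. `P` is minimal with ends `u, v`, `e₀ ∈ J` is the only edge of `P` at `u`; `Q`, `z1`,
`z2`, `g1`, `g2` are as in `StS3a`; derive a contradiction.
STEP 1: `wt (P ∩ Q) ≤ -1`. `g1` is at `u`, so `g1 ∉ Q`, and `g1 ∉ P` since `g1 ≠ e₀` (`g1 ∉ J`). Let
`P' = symmDiff (symmDiff P Q) {g1}` = `insert g1 (symmDiff P Q)`. `bd P' = pt v + pt z2`;
`wt P' = wt P + wt Q + 1 - 2 wt (P ∩ Q) = wt P - 1 - 2 wt (P ∩ Q)`. If `v ≠ z2`, minimality gives
`wt P ≤ wt P'`; if `v = z2`, `P'` is even and `Cons` gives `0 ≤ wt P'`, while `wt P ≤ -1`. In both cases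
`wt (P ∩ Q) ≤ -1`; in particular `P ∩ Q ≠ ∅`.
STEP 2: `e₀ ∈ P \ Q` is the only edge of `P \ Q` at `u`, so `bd (P \ Q) u = 1` (no loops). By
`StL1` there are `Pa ⊆ P \ Q` and `y ≠ u` with `bd (P \ Q) y = 1` and `IsP Pa u y`.
STEP 3: some edge of `Q` is at `y`. Otherwise `bd (P ∩ Q) y = 0`, so `bd P y = bd (P \ Q) y = 1`, so
`y = v` (`y ≠ u`); then `P \ Pa` is even, so `Pa = P` by `StS0`; but `Pa ∩ Q = ∅` and
`P ∩ Q ≠ ∅`: contradiction.
STEP 4: by `StSPL` there is `Q1 ⊆ Q` with `bd Q1 = pt z1 + pt y`; put `Q2 = Q \ Q1`,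
`bd Q2 = pt z2 + pt y`. The sets `Pa`, `Q1`, `{g1}` are pairwise disjoint, their union is contained in
`E` and even: `0 ≤ wt Pa + wt Q1 + 1`. In the same way `0 ≤ wt Pa + wt Q2 + 1` (`g2 ∉ Q`, and
`g2 ∉ P` as `g2` is at `u` and `g2 ∉ J`). Adding: `0 ≤ 2 wt Pa + wt Q + 2 = 2 wt Pa`.
STEP 5: if `y ≠ v`, `P \ Pa` has `IsP (P \ Pa) v y`, `wt (P \ Pa) ≤ wt P` and smaller
cardinality (`Pa ≠ ∅`): contradiction to minimality. If `y = v`, `P \ Pa` is even, so `P = Pa` by
`StS0`, so `wt P ≥ 0`: contradiction. -/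
def StS3b : Prop :=
  ∀ (ε N : Type) [DecidableEq ε] [DecidableEq N] (α β : ε → N) (E J P Q : Finset ε)
    (u v z1 z2 : N) (e₀ g1 g2 : ε),
    (∀ e ∈ E, α e ≠ β e) → Cons α β E J → MinP α β E J P u v →
    e₀ ∈ J → e₀ ∈ P → At α β u e₀ → (∀ e ∈ P, At α β u e → e = e₀) →
    Q ⊆ E → (∀ e ∈ Q, ¬ At α β u e) → IsP α β Q z1 z2 → wt J Q = -2 →
    (∀ Q' ⊆ Q, (∀ x, bd α β Q' x = 0) → Q' = ∅) →
    g1 ∈ E → g1 ∉ J → ((α g1 = u ∧ β g1 = z1) ∨ (α g1 = z1 ∧ β g1 = u)) →
    g2 ∈ E → g2 ∉ J → ((α g2 = u ∧ β g2 = z2) ∨ (α g2 = z2 ∧ β g2 = u)) → False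

/-- MODULE SEB (assembled from S1, S2, S3a, S3b): a node `x` with exactly one edge of `J`, such
that contraction of the star of `x` keeps conservativity. -/
def StSEB : Prop :=
  ∀ (ε N : Type) [DecidableEq ε] [DecidableEq N] (α β : ε → N) (E J : Finset ε),
    Bip α β E → Cons α β E J → J.Nonempty →
    ∃ (x : N) (e₀ : ε), e₀ ∈ J ∧ At α β x e₀ ∧ (∀ e ∈ J, At α β x e → e = e₀) ∧
      ∀ C ⊆ E, (∀ e ∈ C, ¬ At α β x e) → (∀ z, bd α β C z ≠ 0 → Nb α β E x z) → 0 ≤ wt J C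

open Classical in
/-- contraction of the star of `x` -/
noncomputable def rho {ε N : Type} (α β : ε → N) (E : Finset ε) (x v : N) : N :=
  if v = x ∨ Nb α β E x v then x else v

open Classical in
/-- the edges of `E` not at `x` -/
noncomputable def offx {ε N : Type} (α β : ε → N) (E : Finset ε) (x : N) : Finset ε :=
  E.filter (fun e => ¬ At α β x e)

/-- MODULE CON (contraction). `J.erase e₀ ⊆ offx E x` since `e₀` is the only edge of `J` at `x`.
First, for every `A`, `bd (ρ ∘ α) (ρ ∘ β) A v = ∑ u with ρ u = v, bd α β A u` (exchange sums; for a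
fixed node `a`, `∑ u with ρ u = v, pt a u = pt (ρ a) v`). For `C ⊆ offx E x` with
`bd (ρ ∘ α) (ρ ∘ β) C = 0`: if `v ≠ x` is not a neighbour of `x` then `ρ u = v` only for `u = v`, so
`bd C v = 0`; and `bd C x = 0` as `C` has no edge at `x`. So `bd C z ≠ 0` implies `Nb x z`, and the
hypothesis gives `0 ≤ wt J C`; `e₀ ∉ C` so `wt (J.erase e₀) C = wt J C`. Last, the boundary
of `J.erase e₀`: `bd (J.erase e₀) u = bd J u + pt (α e₀) u + pt (β e₀) u` and both ends of `e₀` are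
mapped to `x` (one is `x`, the other is a neighbour of `x`), so the two point masses cancel in the
sum. -/
def StCON : Prop :=
  ∀ (ε N : Type) [DecidableEq ε] [DecidableEq N] [Fintype N] (α β : ε → N) (E J : Finset ε)
    (x : N) (e₀ : ε), Bip α β E → Cons α β E J → e₀ ∈ J → At α β x e₀ →
    (∀ e ∈ J, At α β x e → e = e₀) →
    (∀ C ⊆ E, (∀ e ∈ C, ¬ At α β x e) → (∀ z, bd α β C z ≠ 0 → Nb α β E x z) → 0 ≤ wt J C) →
    Cons (fun e => rho α β E x (α e)) (fun e => rho α β E x (β e)) (offx α β E x) (J.erase e₀) ∧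
    ∀ v, bd (fun e => rho α β E x (α e)) (fun e => rho α β E x (β e)) (J.erase e₀) v =
      ∑ u ∈ Finset.univ.filter (fun u => rho α β E x u = v), bd α β J u

/-- a family of `q` sets of nodes which is a packing with respect to `(E, T, O)`: odd, closed
(`β e ∈ S → α e ∈ S`), the outer neighbours are in `O` and are pairwise disjoint -/
def Pack {ε N : Type} [DecidableEq ε] [DecidableEq N] (α β : ε → N) (E : Finset ε) (T : N → ZMod 2)
    (O : Finset N) (q : ℕ) (S : Fin q → Finset N) : Prop :=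
  (∀ i, ∑ v ∈ S i, T v = 1) ∧
  (∀ i, ∀ e ∈ E, β e ∈ S i → α e ∈ S i) ∧
  (∀ i, ∀ e ∈ E, α e ∈ S i → β e ∉ S i → β e ∈ O) ∧
  (∀ i j, i ≠ j → ∀ e ∈ E, ∀ e' ∈ E, α e ∈ S i → β e ∉ S i → α e' ∈ S j → β e' ∉ S j →
    β e ≠ β e')

/-- conclusion of the induction: a packing with `|J| + 2 ≤ 2 q + (odd in NA) + 2 #(NB \ O)` -/
def Indc {ε N : Type} [DecidableEq ε] [DecidableEq N] (α β : ε → N) (E J : Finset ε)
    (NA NB O : Finset N) : Prop :=
  ∃ (q : ℕ) (S : Fin q → Finset N), Pack α β E (bd α β J) O q S ∧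
    J.card + 2 ≤ 2 * q + (NA.filter (fun v => bd α β J v = 1)).card + 2 * (NB \ O).card

/-- hypotheses of the induction -/
def Indh {ε N : Type} [DecidableEq ε] [DecidableEq N] (α β : ε → N) (E J : Finset ε)
    (NA NB O : Finset N) : Prop :=
  Disjoint NA NB ∧ O ⊆ NB ∧ (∀ e ∈ E, α e ∈ NA ∧ β e ∈ NB) ∧ Cons α β E J ∧
    (∀ v ∈ O, bd α β J v = 0)

/-- MODULE PB (pulling back a packing through a contraction). `ρ` maps `x` and its neighbours to `x`
and fixes the other nodes; `x ∉ O'`. Given a packing `S'` for the contracted data (edges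
`offx E x`, boundary pushed forward, ordinary nodes `O' ⊆ O`, `x ∉ O'`, no neighbour of `x` in
`O'`), the sets `S i = univ.filter (ρ · ∈ S' i)` form a packing for `(E, bd J, O')`:
`∑_{S i} bd J = ∑_{v ∈ S' i} ∑_{ρ u = v} bd J u = 1`. If `e ∈ E` is at `x`, both ends have the same
image `x`, so `β e ∈ S i ↔ α e ∈ S i`. If `e` is not at `x`, `e ∈ offx E x` and the conditions for `S'`
apply to `ρ (α e)`, `ρ (β e)`; for an outer neighbour, `ρ (β e) ∈ O'`, so `ρ (β e) ≠ x`, so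
`ρ (β e) = β e ∈ O'`; disjointness follows. -/
def StPB : Prop :=
  ∀ (ε N : Type) [DecidableEq ε] [DecidableEq N] [Fintype N] (α β : ε → N) (E J : Finset ε)
    (x : N) (e₀ : ε) (O' : Finset N) (q : ℕ) (S' : Fin q → Finset N),
    (∀ v, bd (fun e => rho α β E x (α e)) (fun e => rho α β E x (β e)) (J.erase e₀) v =
      ∑ u ∈ Finset.univ.filter (fun u => rho α β E x u = v), bd α β J u) →
    x ∉ O' →
    Pack (fun e => rho α β E x (α e)) (fun e => rho α β E x (β e)) (offx α β E x)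
      (bd (fun e => rho α β E x (α e)) (fun e => rho α β E x (β e)) (J.erase e₀)) O' q S' →
    Pack α β E (bd α β J) O' q (fun i => Finset.univ.filter (fun u => rho α β E x u ∈ S' i))

open Classical in
/-- MODULE IA (induction step, `x ∈ NA`). Here `NA' = NA.erase x`,
`NB' = insert x (NB.filter (¬ Nb x ·))`, `O' = O.filter (¬ Nb x ·)`. Write `ρ = rho α β E x` and
`bd'` for the boundary of `J.erase e₀` in the contracted graph, which by `StCON` (passed as the
hypothesis `hb`) is `∑_{ρ u = v} bd J u`. If `x ∈ NA`, the neighbours of `x` are second ends (by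
`Disjoint NA NB`), so they are in `NB`; for `v ∈ NA.erase x`: `ρ⁻¹ v = {v}`, so `bd' v = bd J v`; same for
`v ∈ O'`.
The hypothesis `hI`: either `J.erase e₀ = ∅` or `Indc` holds for the contracted data.
BASE `J.erase e₀ = ∅`: `J = {e₀}`, `α e₀ = x ∈ NA` is odd and `β e₀ ∈ NB` is odd, so `β e₀ ∉ O`;
take `q = 0`: `3 ≤ 1 + 2`.
STEP: let `q', S'` be from `hI`; `StPB` gives a packing `S` for `(E, bd J, O')`, `q'` sets; `O' ⊆ O`.
`bd J x = 1` (exactly one edge of `J` at `x`, no loops), so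
`#(NA odd) = #(NA.erase x odd) + 1 = #(NA' odd for bd') + 1`.
CASE every neighbour of `x` is in `O`: add the set `{x}`: `bd J x = 1`; `β e = x` is impossible
for `e ∈ E`; outer neighbours of `{x}` are neighbours of `x`, in `O`; they are not in `O'`, while
outer neighbours of the other sets are in `O'`: so the new family of `q' + 1` sets is a packing for
`O`. `NB' \ O' ⊆ insert x (NB \ O)`, so `#(NB' \ O') ≤ #(NB \ O) + 1`. Count:
`|J| + 2 = |J.erase e₀| + 3 ≤ 2 q' + #(NA' odd) + 2 #(NB' \ O') + 1 ≤ 2 (q' + 1) + #(NA odd) + 2 #(NB \ O)`.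
CASE some neighbour `z` of `x` is not in `O`: `z ∈ (NB \ O) \ (NB' \ O')` and
`NB' \ O' ⊆ insert x ((NB \ O).erase z)`, so `#(NB' \ O') ≤ #(NB \ O)`; take `q = q'`:
`|J| + 2 = |J.erase e₀| + 3 ≤ 2 q' + #(NA' odd) + 2 #(NB' \ O') + 1 ≤ 2 q' + #(NA odd) + 2 #(NB \ O)`. -/
def StIA : Prop :=
  ∀ (ε N : Type) [DecidableEq ε] [DecidableEq N] [Fintype N] (α β : ε → N) (E J : Finset ε)
    (NA NB O : Finset N) (x : N) (e₀ : ε),
    Indh α β E J NA NB O → e₀ ∈ J → At α β x e₀ → (∀ e ∈ J, At α β x e → e = e₀) → x ∈ NA →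
    (∀ v, bd (fun e => rho α β E x (α e)) (fun e => rho α β E x (β e)) (J.erase e₀) v =
      ∑ u ∈ Finset.univ.filter (fun u => rho α β E x u = v), bd α β J u) →
    (J.erase e₀ = ∅ ∨ Indc (fun e => rho α β E x (α e)) (fun e => rho α β E x (β e))
      (offx α β E x) (J.erase e₀) (NA.erase x) (insert x (NB.filter (fun v => ¬ Nb α β E x v)))
      (O.filter (fun v => ¬ Nb α β E x v))) →
    Indc α β E J NA NB O

open Classical in
/-- MODULE IB (induction step, `x ∈ NB`). Here `NA' = insert x (NA.filter (¬ Nb x ·))`,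
`NB' = NB.erase x`, `O' = O`. The neighbours of `x` are in `NA`. `bd J x = 1`, so `x ∉ O`, `x ∈ NB \ O`.
BASE `J.erase e₀ = ∅`: `J = {e₀}`, `β e₀ = x`, `α e₀ ∈ NA` is odd; `q = 0`: `3 ≤ 1 + 2`.
STEP: `StPB` (with `O' = O`, `x ∉ O`) gives the packing with `q = q'`.
`#(NB' \ O) = #(NB \ O) - 1`; `#(NA' odd for bd') ≤ #(NA odd for bd J) + 1` since for
`v ∈ NA`, `v` not a neighbour of `x`, `v ≠ x`: `bd' v = bd J v`. So
`|J| + 2 = |J.erase e₀| + 3 ≤ 2 q' + #(NA' odd) + 2 #(NB' \ O) + 1 ≤ 2 q' + #(NA odd) + 2 #(NB \ O)`. -/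
def StIB : Prop :=
  ∀ (ε N : Type) [DecidableEq ε] [DecidableEq N] [Fintype N] (α β : ε → N) (E J : Finset ε)
    (NA NB O : Finset N) (x : N) (e₀ : ε),
    Indh α β E J NA NB O → e₀ ∈ J → At α β x e₀ → (∀ e ∈ J, At α β x e → e = e₀) → x ∈ NB →
    (∀ v, bd (fun e => rho α β E x (α e)) (fun e => rho α β E x (β e)) (J.erase e₀) v =
      ∑ u ∈ Finset.univ.filter (fun u => rho α β E x u = v), bd α β J u) →
    (J.erase e₀ = ∅ ∨ Indc (fun e => rho α β E x (α e)) (fun e => rho α β E x (β e))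
      (offx α β E x) (J.erase e₀) (insert x (NA.filter (fun v => ¬ Nb α β E x v))) (NB.erase x) O) →
    Indc α β E J NA NB O

/-- IND (assembled from SEB, CON, IA, IB by induction on `J.card`). -/
def StIND : Prop :=
  ∀ (ε N : Type) [DecidableEq ε] [DecidableEq N] [Fintype N] (α β : ε → N) (E J : Finset ε)
    (NA NB O : Finset N), Indh α β E J NA NB O → J.Nonempty → Indc α β E J NA NB O

/-- MODULE MJ (minimal join). If `J₀ ⊆ E`, there is `J ⊆ E` with the same boundary and `Cons`: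
choose among all `J ⊆ E` with the boundary of `J₀` one of minimal cardinality (finite set
`E.powerset.filter`). For an even `C ⊆ E` the set `symmDiff J C ⊆ E` has the same boundary
(`bd_symmDiff`), so `J.card ≤ (symmDiff J C).card = J.card + C.card - 2 (C ∩ J).card`, that is
`0 ≤ wt J C`. -/
def StMJ : Prop :=
  ∀ (ε N : Type) [DecidableEq ε] [DecidableEq N] (α β : ε → N) (E J₀ : Finset ε), J₀ ⊆ E →
    ∃ J, Cons α β E J ∧ ∀ x, bd α β J x = bd α β J₀ x

/-- MODULE TJ (joins exist in a connected multigraph). For `T : N → ZMod 2` with sum `0` there is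
`J ⊆ E` with boundary `T`. Induction on the number of nodes with `T ≠ 0`. If there is none, `J = ∅`.
Otherwise let `T a = 1`; as the sum is `0` there is `b ≠ a` with `T b = 1` (`Finset.sum_eq_single`-type
argument); `T' = T + pt a + pt b` has two odd nodes less and sum `0`; take `J'` for `T'`, `P` for
`(a, b)` and `J = symmDiff J' P`. -/
def StTJ : Prop :=
  ∀ (ε N : Type) [DecidableEq ε] [DecidableEq N] [Fintype N] (α β : ε → N) (E : Finset ε)
    (T : N → ZMod 2), (∀ a b : N, ∃ P ⊆ E, ∀ x, bd α β P x = pt a x + pt b x) →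
    ∑ v, T v = 0 → ∃ J ⊆ E, ∀ x, bd α β J x = T x

/-- MODULE XR (classes after contracting the stars of `X`). `NB ∩ NA = ∅`, `X ⊆ NB`. The relation
`u ~ u'` iff there is `P ⊆ E` all of whose edges `e` have `β e ∈ X`, with `bd P = pt u + pt u'`, is an
equivalence relation (reflexive: `P = ∅`; transitive: `symmDiff`). Let `ρ u` be a chosen
representative of the class of `u` (`Quotient.out`). (1) for `e ∈ E` with `β e ∈ X`, `P = {e}` shows
`ρ (α e) = ρ (β e)`. (2) if `v ∈ NB \ X` and `ρ u = ρ v`: `P` has no edge at `v` (second ends are in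
`X`, first ends in `NA`), so `0 = bd P v = pt u v + pt v v`, so `u = v`; hence also `ρ v = v` (as
`ρ (ρ v) = ρ v`) and `ρ u = v` implies `u = v`. (3) is the definition of the relation. -/
def StXR : Prop :=
  ∀ (ε N : Type) [DecidableEq ε] [DecidableEq N] [Fintype N] (α β : ε → N) (E : Finset ε)
    (NA NB X : Finset N), Disjoint NA NB → X ⊆ NB → (∀ e ∈ E, α e ∈ NA ∧ β e ∈ NB) →
    ∃ ρ : N → N, (∀ e ∈ E, β e ∈ X → ρ (α e) = ρ (β e)) ∧
      (∀ v ∈ NB, v ∉ X → ρ v = v ∧ ∀ u, ρ u = v → u = v) ∧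
      (∀ u u', ρ u = ρ u' → ∃ P ⊆ E, (∀ e ∈ P, β e ∈ X) ∧ ∀ x, bd α β P x = pt u x + pt u' x)

/-- MODULE XL (lifting). If `D : N → ZMod 2` has sum `0` over every class `{u | ρ u = c}`, there is a
set `P ⊆ E` of edges with `β e ∈ X` and boundary `D`. Induction on the number of `u` with
`D u ≠ 0`: if `D a = 1`, the class of `a` contains another `b` with `D b = 1`; replace `D` by
`D + pt a + pt b` (the sums over classes remain `0`) and use `symmDiff` with the path of (3). -/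
def StXL : Prop :=
  ∀ (ε N : Type) [DecidableEq ε] [DecidableEq N] [Fintype N] (α β : ε → N) (E : Finset ε)
    (X : Finset N) (ρ : N → N) (D : N → ZMod 2),
    (∀ u u', ρ u = ρ u' → ∃ P ⊆ E, (∀ e ∈ P, β e ∈ X) ∧ ∀ x, bd α β P x = pt u x + pt u' x) →
    (∀ c, ∑ u ∈ Finset.univ.filter (fun u => ρ u = c), D u = 0) →
    ∃ P ⊆ E, (∀ e ∈ P, β e ∈ X) ∧ ∀ x, bd α β P x = D x

/-- MODULE HB. If `J` has no edge `e` with `α e = β e'` (`e, e' ∈ J`) and every second end has
boundary `0`, the number of second ends is at most `J.card / 2`: for `v = β e`, `e ∈ J`, the number of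
edges of `J` with second end `v` is even (it is `bd J v` modulo 2, as no first end is `v`) and
positive, so at least `2`; sum over `v` (`Finset.card_eq_sum_card_image`). -/
def StHB : Prop :=
  ∀ (ε N : Type) [DecidableEq ε] [DecidableEq N] (α β : ε → N) (J : Finset ε),
    Bip α β J → (∀ e ∈ J, bd α β J (β e) = 0) → 2 * (J.image β).card ≤ J.card

/-- MODULE XA (joins and packings relative to a set `X` of contracted nodes). Assembled from XR,
MJ, IND, XL, HB. Take `ρ` from `StXR`. Let `E₁ = E.filter (β e ∉ X)`, `α₁ = ρ ∘ α`, `β₁ = ρ ∘ β`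
(for `e ∈ E₁`, `ρ (β e) = β e`). Let `J₀` be the given join, `T₁ v = ∑_{ρ u = v} T u`. Pushing forward the
boundary, `bd α₁ β₁ (J₀.filter (β e ∉ X)) = T₁`, since an edge with `β e ∈ X` has both ends in one
class. By `StMJ` take `J₁ ⊆ E₁` with `Cons α₁ β₁ E₁ J₁` and boundary `T₁`.
If `J₁ = ∅` then `T₁ = 0`; by `StXL` with `D = T` there is `P` with boundary `T`, all second ends in
`X`: second alternative, `q = 0`. Otherwise apply `StIND` to `α₁, β₁, E₁, J₁`,
`NA₁ = NA.image ρ`, `NB₁ = O₁ = NB \ X` (`Disjoint`: `ρ a = v ∈ NB \ X` gives `a = v ∈ NB`; `T₁ v = T v = 0`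
on `NB \ X`): `q`, `S₁` with `|J₁| + 2 ≤ 2 q + #{v ∈ NA₁ | T₁ v = 1}`. Every `v` with `T₁ v = 1` is
`ρ u` for some `u` with `T u = 1`, so this number is at most `((univ.filter (T u = 1)).image ρ).card`.
Put `S i = univ.filter (ρ u ∈ S₁ i)`: a packing for `(E, T, NB)` (an edge with `β e ∈ X` has both ends
in one class; for an outer neighbour `β e` we have `β e ∉ X`, so `ρ (β e) = β e`).
`D = T + bd α β J₁` has sum `T₁ - bd α₁ β₁ J₁ = 0` over every class; `StXL` gives `P`; the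
join is `J = J₁ ∪ P` (disjoint: second ends outside `X`, inside `X`). `J.image β ⊆ J₁.image β ∪ X` and
`2 (J₁.image β).card ≤ J₁.card` by `StHB` (applied to `α₁, β₁, J₁`; `β₁ = β` on `J₁`). So
`2 (X ∪ J.image β).card + 2 ≤ 2 |X| + |J₁| + 2 ≤ ...`. -/
def StXA : Prop :=
  ∀ (ε N : Type) [DecidableEq ε] [DecidableEq N] [Fintype N] (α β : ε → N) (E : Finset ε)
    (NA NB X : Finset N) (T : N → ZMod 2), Disjoint NA NB → X ⊆ NB →
    (∀ e ∈ E, α e ∈ NA ∧ β e ∈ NB) → (∀ v, v ∉ NA → T v = 0) →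
    (∃ J₀ ⊆ E, ∀ x, bd α β J₀ x = T x) →
    ∃ ρ : N → N, (∀ e ∈ E, β e ∈ X → ρ (α e) = ρ (β e)) ∧
      ∃ J ⊆ E, (∀ x, bd α β J x = T x) ∧ ∃ (q : ℕ) (S : Fin q → Finset N),
        Pack α β E T NB q S ∧
        (2 * (J.image β).card + 2 ≤
            2 * X.card + ((Finset.univ.filter (fun u => T u = 1)).image ρ).card + 2 * q ∨
          J.image β ⊆ X)

end Pool.Agent.Helper52.NF
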