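import Pool.Agent.Helper52.NF.Basic

/-! Statements of the modules, part 2: the weighted Euler inequality from a spanning family of the
cycle space with every edge in at most two members, and the combinatorial core (a light face). -/

set_option autoImplicit false

namespace Pool.Agent.Helper52.NF

open Finset

/-- MODULE MAC (deletion of edges in a family as in Mac Lane's criterion). Induction on `R`.
Start: `F' = F`. Step from `R` to `insert e R`, `F'` given for `R`; let `K = F'.filter (x e ≠ 0)`,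
`K.card ≤ 2`.
`K = ∅`: keep `F'`.
`K = {C1}`: take `F'.erase C1`. If `x ∈ W` vanishes on `R` and at `e`: `x = a • C1 + y`, `y` in the span of
`F'.erase C1` (`Submodule.mem_span_insert`), all members of which vanish at `e`; so `a = 0`.
`K = {C1, C2}`: take `insert (C1 + C2) ((F'.erase C1).erase C2)`. If `x ∈ W` vanishes on `R` and at `e`:
`x = a • C1 + b • C2 + y`, and `0 = x e = a + b` (`C1 e = C2 e = 1`), so `a = b` and
`x = a • (C1 + C2) + y`. For a coordinate `e'`: if `(C1 + C2) e' ≠ 0` then exactly one of `C1 e'`,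
`C2 e'` is nonzero, so the number of members nonzero at `e'` does not increase. -/
def StMAC : Prop :=
  ∀ (ε : Type) [Fintype ε] [DecidableEq ε] (W : Submodule (ZMod 2) (ε → ZMod 2))
    (F : Finset (ε → ZMod 2)),
    (∀ x ∈ F, x ∈ W) → (∀ x ∈ W, x ∈ Submodule.span (ZMod 2) (F : Set (ε → ZMod 2))) →
    (∀ e, (F.filter (fun x => x e ≠ 0)).card ≤ 2) →
    ∀ R : Finset ε, ∃ F' : Finset (ε → ZMod 2),
      (∀ x ∈ F', x ∈ W ∧ ∀ e ∈ R, x e = 0) ∧
      (∀ x ∈ W, (∀ e ∈ R, x e = 0) → x ∈ Submodule.span (ZMod 2) (F' : Set (ε → ZMod 2))) ∧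
      (∀ e, (F'.filter (fun x => x e ≠ 0)).card ≤ 2)

/-- `x` is in the cycle space of the bipartite multigraph with ends `α : ε → A`, `β : ε → B` -/
def Cyc {ε A B : Type} [Fintype ε] [DecidableEq A] [DecidableEq B] (α : ε → A) (β : ε → B)
    (x : ε → ZMod 2) : Prop :=
  (∀ a, ∑ e ∈ Finset.univ.filter (fun e => α e = a), x e = 0) ∧
  (∀ b, ∑ e ∈ Finset.univ.filter (fun e => β e = b), x e = 0)

/-- MODULE DIM (lower bound for the dimension of the cycle space). Let `K` be the kernel of the linear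
map `Φ : (E₁ → ZMod 2) → (A₁ → ZMod 2) × (B₁ → ZMod 2)`, `Φ x = (sums over α-fibres, sums over
β-fibres)`. The range is contained in the kernel of the nonzero functional
`(g, h) ↦ ∑ g + ∑ h` (nonzero as `A₁` is nonempty; it vanishes on the range since both sums equal
`∑ e, x e`). So `rank Φ ≤ |A₁| + |B₁| - 1` and `dim K ≥ |E₁| + 1 - |A₁| - |B₁|`. Extension by zero embeds
`K` into the span of `G` (hypothesis), so `dim K ≤ G.card` (`finrank_span_finset_le_card`). -/
def StDIM : Prop :=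
  ∀ (ε A B : Type) [Fintype ε] [DecidableEq ε] [DecidableEq A] [DecidableEq B]
    (α : ε → A) (β : ε → B) (E₁ : Finset ε) (A₁ : Finset A) (B₁ : Finset B)
    (G : Finset (ε → ZMod 2)), A₁.Nonempty → (∀ e ∈ E₁, α e ∈ A₁ ∧ β e ∈ B₁) →
    (∀ x, Cyc α β x → (∀ e, e ∉ E₁ → x e = 0) →
      x ∈ Submodule.span (ZMod 2) (G : Set (ε → ZMod 2))) →
    E₁.card + 1 ≤ G.card + (A₁.card + B₁.card)

/-- MODULE EUL (weighted Euler inequality; uses `StMAC` and `StDIM`). Apply `StMAC` to the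
submodule `W` of all `x` with `Cyc α β x` and `R = E₁ᶜ`: `F'`. Let `G = F'.erase 0`; it still spans
(`0` is in every span), so `StDIM` gives `|E₁| + 1 ≤ |G| + |A₁| + |B₁|`. For `x ∈ G` the support
`C = univ.filter (x e ≠ 0)` is a nonempty subset of `E₁` with even degrees (`∑ x e = 0` in `ZMod 2` over a
fibre says that the number of nonzero terms is even), so `M ≤ ∑_{e ∈ C} w e`. Sum over `x ∈ G`
and exchange: `M |G| ≤ ∑_{e ∈ E₁} w e * #{x ∈ G | x e ≠ 0} ≤ 2 ∑_{e ∈ E₁} w e`. -/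
def StEUL : Prop :=
  ∀ (ε A B : Type) [Fintype ε] [DecidableEq ε] [DecidableEq A] [DecidableEq B]
    (α : ε → A) (β : ε → B) (F : Finset (ε → ZMod 2)),
    (∀ x ∈ F, Cyc α β x) →
    (∀ x, Cyc α β x → x ∈ Submodule.span (ZMod 2) (F : Set (ε → ZMod 2))) →
    (∀ e, (F.filter (fun x => x e ≠ 0)).card ≤ 2) →
    ∀ (E₁ : Finset ε) (A₁ : Finset A) (B₁ : Finset B) (w : ε → ℕ) (M : ℕ),
      A₁.Nonempty → (∀ e ∈ E₁, α e ∈ A₁ ∧ β e ∈ B₁) →
      (∀ C ⊆ E₁, C.Nonempty → (∀ a, Even (C.filter (fun e => α e = a)).card) →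
        (∀ b, Even (C.filter (fun e => β e = b)).card) → M ≤ ∑ e ∈ C, w e) →
      M * (E₁.card + 1) ≤ 2 * ∑ e ∈ E₁, w e + M * (A₁.card + B₁.card)

section
open Classical

/-- the members of `T` incident with `z` -/
noncomputable def Dz {A B : Type} (I : A → B → Prop) (T : Finset A) (z : B) : Finset A :=
  T.filter (fun f => I f z)

/-- the Euler inequality for the incidence relation `I` between `T` and any set `U` -/
def EH {A B : Type} [Fintype B] (I : A → B → Prop) (T : Finset A) : Prop :=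
  ∀ (U : Finset B) (w : A → B → ℕ),
    (∀ C : Finset (A × B), (∀ p ∈ C, p.2 ∈ U ∧ p.1 ∈ Dz I T p.2) → C.Nonempty →
      (∀ f, Even (C.filter (fun p => p.1 = f)).card) →
      (∀ z, Even (C.filter (fun p => p.2 = z)).card) → 12 ≤ ∑ p ∈ C, w p.1 p.2) →
    12 * (∑ z ∈ U, (Dz I T z).card + 1) ≤
      2 * ∑ z ∈ U, ∑ f ∈ Dz I T z, w f z + 12 * (T.card + U.card)

/-- a light member: twice the number of its big nodes (at least 4 members of `T`) plus the number of
its neighbours without a common big node is at most 7 -/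
def LFc {A B : Type} [Fintype B] (I : A → B → Prop) (T : Finset A) : Prop :=
  ∃ f ∈ T, 2 * (Finset.univ.filter (fun z : B => 4 ≤ (Dz I T z).card ∧ I f z)).card +
    (T.filter (fun g => g ≠ f ∧ (∃ z, I f z ∧ I g z) ∧
      ∀ z, I f z → I g z → (Dz I T z).card < 4)).card ≤ 7

/-- touching pairs without a common big node -/
noncomputable def PP {A B : Type} (I : A → B → Prop) (T : Finset A) : Finset (Finset A) :=
  (T.powersetCard 2).filter (fun p => (∃ z, p ⊆ Dz I T z) ∧ ∀ z, p ⊆ Dz I T z → (Dz I T z).card < 4)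

/-- those of them without a common node of degree 3 -/
noncomputable def P2 {A B : Type} (I : A → B → Prop) (T : Finset A) : Finset (Finset A) :=
  (PP I T).filter (fun p => ∀ z, p ⊆ Dz I T z → (Dz I T z).card ≠ 3)

/-- `sh p = 1` if `p` is contained in `Dz z` for at least two nodes `z` of degree at least 3 -/
noncomputable def sh {A B : Type} [Fintype B] (I : A → B → Prop) (T : Finset A) (p : Finset A) : ℕ :=
  if 2 ≤ (Finset.univ.filter (fun z : B => 3 ≤ (Dz I T z).card ∧ p ⊆ Dz I T z)).card then 1 else 0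

/-- the weights -/
noncomputable def wf {A B : Type} [Fintype B] (I : A → B → Prop) (T : Finset A) (f : A) (z : B) : ℕ :=
  if (Dz I T z).card = 3 then
    (2 - sh I T ((Dz I T z).erase f)) +
      ∑ p ∈ ((Dz I T z).powersetCard 2).filter (fun p => f ∈ p), sh I T p
  else if 4 ≤ (Dz I T z).card then 3 else 2

/-- nodes of degree 3 and more -/
noncomputable def V3 {A B : Type} [Fintype B] (I : A → B → Prop) (T : Finset A) : Finset B :=
  Finset.univ.filter (fun z => (Dz I T z).card = 3)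
noncomputable def V4 {A B : Type} [Fintype B] (I : A → B → Prop) (T : Finset A) : Finset B :=
  Finset.univ.filter (fun z => 4 ≤ (Dz I T z).card)

/-- MODULE LFU. For `p ∈ P2`: `p ⊆ Dz z` for some `z`, and `(Dz z).card < 4`, `≠ 3`, `≥ 2`, so
`Dz z = p`. Choose such a `z = g p` for every `p ∈ P2` and let `U2 = (P2 I T).image g`
(`g` is injective on `P2` since `Dz (g p) = p`). -/
def StLFU : Prop :=
  ∀ (A B : Type) [Fintype B] (I : A → B → Prop) (T : Finset A),
    ∃ U2 : Finset B, U2.card = (P2 I T).card ∧ (∀ z ∈ U2, Dz I T z ∈ P2 I T) ∧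
      (∀ z ∈ U2, ∀ z' ∈ U2, Dz I T z = Dz I T z' → z = z')

/-- MODULE LFS (the sums at one node of degree 3). Let `Dz z = {f, g, h}`. Its pairs are `{f, g}`,
`{f, h}`, `{g, h}`; `wf f z = 2 - sh {g, h} + sh {f, g} + sh {f, h}` and so on (`sh ≤ 1`, so
no truncation). (1) the sum over the three members is `6 + ∑_{pairs} sh p`. (2) for a pair `p`,
`∑_{f ∈ p} wf f z = 4 + 2 sh p`. -/
def StLFS : Prop :=
  ∀ (A B : Type) [Fintype B] (I : A → B → Prop) (T : Finset A) (z : B), (Dz I T z).card = 3 →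
    (∑ f ∈ Dz I T z, wf I T f z = 6 + ∑ p ∈ (Dz I T z).powersetCard 2, sh I T p) ∧
    (∀ p ∈ (Dz I T z).powersetCard 2, ∑ f ∈ p, wf I T f z = 4 + 2 * sh I T p)

/-- MODULE LFW (every cycle has weight at least 12; uses `StLFS`). `U = U2 ∪ V3 ∪ V4`, `U2` as in
`StLFU`. For `z` touched by `C` (some `p ∈ C` with `p.2 = z`) let
`Cz = (C.filter (p.2 = z)).image Prod.fst ⊆ Dz z`; `Cz.card` is even and positive, so `≥ 2`, and the weight
of the part of `C` at `z` is `∑_{f ∈ Cz} wf f z`. It is at least `4`: if `(Dz z).card = 2` (for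
`z ∈ U2`) every weight is 2; if `(Dz z).card = 3`, `Cz.card = 2` and it is `4 + 2 sh Cz`; if
`(Dz z).card ≥ 4` every weight is 3 and it is at least `6`. Each touched `f` has even
positive degree in `C`, so `C` touches at least two nodes `z`. If it touches at least three, the total is
`≥ 12`. Suppose it touches exactly `z ≠ z'`. Then every touched `f` is in `Dz z ∩ Dz z'` and
`Cz = Cz'`; it contains a pair `{f, g}`. If `z ∈ U2`: `Dz z = {f, g}` is in `P2`, and
`{f, g} ⊆ Dz z'` shows (`P2`) that `(Dz z').card < 4`, `≠ 3`, so `Dz z' = {f, g}` too, `z'` is not in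
`V3 ∪ V4`, so `z' ∈ U2` and `z = z'`, a contradiction. Same for `z'`. So `z, z' ∈ V3 ∪ V4`, and
`sh {f, g} = 1` (two nodes of degree at least 3). If `z ∈ V3`, `Cz` has two elements, `Cz = {f, g}`, and
the weight at `z` is `6`; if `z ∈ V4` it is at least `6`. Same for `z'`. Total `≥ 12`. -/
def StLFW : Prop :=
  ∀ (A B : Type) [Fintype B] (I : A → B → Prop) (T : Finset A) (U2 : Finset B),
    (∀ z ∈ U2, Dz I T z ∈ P2 I T) → (∀ z ∈ U2, ∀ z' ∈ U2, Dz I T z = Dz I T z' → z = z') →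
    ∀ C : Finset (A × B), (∀ p ∈ C, p.2 ∈ U2 ∪ V3 I T ∪ V4 I T ∧ p.1 ∈ Dz I T p.2) → C.Nonempty →
      (∀ f, Even (C.filter (fun p => p.1 = f)).card) →
      (∀ z, Even (C.filter (fun p => p.2 = z)).card) → 12 ≤ ∑ p ∈ C, wf I T p.1 p.2

/-- MODULE LFP. For `p ∈ PP`: if `p ∈ P2` it is counted on the right. Otherwise there is `z` with
`p ⊆ Dz z`, `(Dz z).card = 3`. Exchange sums:
`∑_{z ∈ V3} ∑_{p ∈ (Dz z).powersetCard 2} (4 - 2 sh p) ≥ ∑_{p ∈ PP \ P2} #{z ∈ V3 | p ⊆ Dz z} * (4 - 2 sh p)`,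
and for `p ∈ PP` the nodes `z` with `3 ≤ (Dz z).card`, `p ⊆ Dz z` are exactly the `z ∈ V3` with
`p ⊆ Dz z`; if there is exactly one, `sh p = 0` and the term is `4`; if there are at least two the term is
at least `2 * 2`. -/
def StLFP : Prop :=
  ∀ (A B : Type) [Fintype B] (I : A → B → Prop) (T : Finset A),
    4 * (PP I T).card ≤ 4 * (P2 I T).card +
      ∑ z ∈ V3 I T, ∑ p ∈ (Dz I T z).powersetCard 2, (4 - 2 * sh I T p)

/-- MODULE LFC (the count; uses `StLFU`, `StLFS`, `StLFW`, `StLFP`). Apply the inequality `EH`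
to `U = U2 ∪ V3 ∪ V4` (pairwise disjoint: degrees 2, 3, `≥ 4`) and `w = wf`; the cycle condition is
`StLFW`. `∑_{z ∈ U} (Dz z).card = 2 |U2| + 3 |V3| + ∑_{V4} (Dz z).card`;
`∑_z ∑_f wf f z = 4 |U2| + ∑_{V3} (6 + ∑_p sh p) + 3 ∑_{V4} (Dz z).card`; for `z ∈ V3` there are three
pairs, so `∑_p (4 - 2 sh p) = 12 - 2 ∑_p sh p`. The inequality becomes
`4 |U2| + ∑_{V3} ∑_p (4 - 2 sh p) + 6 ∑_{V4} (Dz z).card + 12 ≤ 12 |T| + 12 |V4|`. Use `StLFP`. -/
def StLFC : Prop :=
  ∀ (A B : Type) [Fintype B] (I : A → B → Prop) (T : Finset A), EH I T →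
    4 * (PP I T).card + 6 * ∑ z ∈ V4 I T, (Dz I T z).card + 12 ≤
      12 * T.card + 12 * (V4 I T).card

/-- MODULE LFA (averaging; uses `StLFC`). For `f ∈ T` let `s f = #{z | 4 ≤ (Dz z).card ∧ I f z}` and
`d f` the number of `g` in `LFc`. `∑_{f ∈ T} s f = ∑_{z ∈ V4} (Dz z).card`;
`∑_{f ∈ T} d f = 2 (PP).card` (`g ↦ {f, g}` is a bijection from the `g`'s of `f` to the pairs of `PP`
containing `f`; a pair has two members). For `z ∈ V4`: `(Dz z).card ≥ 4`, so
`6 (Dz z).card ≥ 12 + 3 (Dz z).card`. Hence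
`∑_{f ∈ T} (2 d f + 3 s f) + 12 ≤ 12 |T|`. So some `f ∈ T` has `2 d f + 3 s f ≤ 11`, and then
`2 s f + d f ≤ 7` (`omega`). -/
def StLFA : Prop :=
  ∀ (A B : Type) [Fintype B] (I : A → B → Prop) (T : Finset A), EH I T → T.Nonempty → LFc I T

/-- MODULE GRD (greedy choice). Strong induction on `T.card`. `T = ∅`: `F₀ = ∅`, `X = ∅`. Otherwise let
`f ∈ T` be from `LFc I T`, `s`, `d` its two numbers, `2 s + d ≤ 7`. Let
`T' = T.filter (g ≠ f ∧ ∀ z, ¬ (I f z ∧ I g z))`, and `F₀'`, `X'` from the induction for `T'` (all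
subsets of `T'` are subsets of `T`). Put `F₀ = insert f F₀'`,
`X = X' ∪ univ.filter (4 ≤ (Dz I T z).card ∧ I f z)`. Members of `F₀'` do not touch `f`. For `ρ` constant on
the members at every `z ∈ X`: the members of `T \ T'` are `f`, the `g` sharing a big node with `f`
(`ρ g = ρ f`) and the `d` others; so `(T.image ρ).card ≤ (T'.image ρ).card + 1 + d` and
`(T.image ρ).card + 2 |X| ≤ (T'.image ρ).card + 2 |X'| + 1 + d + 2 s ≤ 8 |F₀'| + 8`. -/
def StGRD : Prop :=
  ∀ (A B : Type) [Fintype B] (I : A → B → Prop) (T : Finset A),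
    (∀ T' ⊆ T, T'.Nonempty → LFc I T') →
    ∃ (F₀ : Finset A) (X : Finset B), F₀ ⊆ T ∧ (T.Nonempty → F₀.Nonempty) ∧
      (∀ f ∈ F₀, ∀ g ∈ F₀, f ≠ g → ∀ z, ¬ (I f z ∧ I g z)) ∧
      ∀ (K : Type) (ρ : A → K), (∀ z ∈ X, ∀ f g, I f z → I g z → ρ f = ρ g) →
        (T.image ρ).card + 2 * X.card ≤ 8 * F₀.card

end

end Pool.Agent.Helper52.NF
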