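import Pool.Agent.Helper52.NF.St2

/-! Statements of the modules, part 3: connected plane graphs given by a rotation system of genus 0. -/

set_option autoImplicit false

namespace Pool.Agent.Helper52.NF

open Finset

section
variable {V : Type} {G : SimpleGraph V}

/-- the faces: orbits of the face permutation `φ` -/
abbrev Fc (φ : Equiv.Perm G.Dart) : Type := Quotient (Equiv.Perm.SameCycle.setoid φ)

/-- the face of a dart -/
def fc (φ : Equiv.Perm G.Dart) (d : G.Dart) : Fc φ := Quotient.mk _ d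

/-- `rot` is a rotation system of the connected graph `G`, `φ` its face permutation, and Euler's
formula (genus 0) holds -/
def PlaneH (V : Type) [Fintype V] (G : SimpleGraph V) (rot φ : Equiv.Perm G.Dart) : Prop :=
  G.Connected ∧ (∀ d, (rot d).fst = d.fst) ∧ (∀ d d' : G.Dart, d.fst = d'.fst → rot.SameCycle d d') ∧
  (∀ d, φ d = rot d.symm) ∧ Fintype.card V + Nat.card (Fc φ) = Nat.card G.edgeSet + 2

/-- the two ends of a dart in the vertex-face graph -/
def ea (φ : Equiv.Perm G.Dart) (d : G.Dart) : Fc φ ⊕ V := Sum.inl (fc φ d)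
def eb (φ : Equiv.Perm G.Dart) (d : G.Dart) : Fc φ ⊕ V := Sum.inr d.fst

end

/-- MODULE LIN (exactness from a dimension count). `dim range M ≥ |I| - 1` (the kernel has at most the
two elements `0`, `1`, so dimension at most 1) and `dim range N' ≥ |K| - 1`. By adjointness
`ker N = {c | ∀ g, ∑ j, N' g j * c j = 0}` is the orthogonal space of `range N'`, so
`dim ker N = |J| - dim range N' ≤ |J| - |K| + 1 = |I| - 1` (for instance: `rank N = rank N'`, both
being the rank of a matrix and its transpose, `Matrix.rank_transpose`, and rank-nullity for `N`).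
`range M ≤ ker N`, so they are equal (`Submodule.eq_of_le_of_finrank_le`). -/
def StLIN : Prop :=
  ∀ (I J K : Type) [Fintype I] [Fintype J] [Fintype K] [DecidableEq I] [DecidableEq J]
    [DecidableEq K] (M : (I → ZMod 2) →ₗ[ZMod 2] (J → ZMod 2))
    (N : (J → ZMod 2) →ₗ[ZMod 2] (K → ZMod 2)) (N' : (K → ZMod 2) →ₗ[ZMod 2] (J → ZMod 2)),
    (∀ g c, ∑ k, g k * N c k = ∑ j, N' g j * c j) →
    (∀ x, N (M x) = 0) → (∀ x, M x = 0 → x = 0 ∨ x = fun _ => 1) →
    (∀ g, N' g = 0 → g = 0 ∨ g = fun _ => 1) →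
    Fintype.card I + Fintype.card K = Fintype.card J + 2 →
    ∀ c, N c = 0 → ∃ x, M x = c

section
open Classical

/-- MODULE EU (even edge sets are sums of face boundaries; uses `StLIN`). `I = Fc φ`,
`J = G.edgeSet`, `K = V`;
`M χ e = ∑_{d, d.edge = e} χ (fc d)` (two darts), `N c v = ∑_{d, d.fst = v} c ⟨d.edge, _⟩`,
`N' g e = ∑_{d, d.edge = e} g d.fst`.
Adjointness: both sides are `∑_d g d.fst * c d.edge`.
`N (M χ) = 0`: `∑_{d.fst = v} (χ (fc d) + χ (fc d.symm))`, and `fc d.symm = fc (φ d.symm) = fc (rot d)`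
(`φ d.symm = rot d.symm.symm = rot d`), so by the bijection `rot` of the darts at `v` the two sums
are equal, total `0`.
Kernel of `M`: `χ (fc d) = χ (fc d.symm) = χ (fc (rot d))` for all `d`, so `d ↦ χ (fc d)` is constant on
the darts at each vertex (`SameCycle`) and equal on `d` and `d.symm`; by connectivity it is constant;
every face is `fc d`. (It is a value in `ZMod 2`, so `χ = 0` or `χ = 1`.)
Kernel of `N'`: `g d.fst + g d.snd = 0` for all darts, so `g` is constant by connectivity.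
Card: the Euler formula. -/
def StEU : Prop :=
  ∀ (V : Type) [Fintype V] (G : SimpleGraph V) (rot φ : Equiv.Perm G.Dart), PlaneH V G rot φ →
    ∀ c : Sym2 V → ZMod 2,
      (∀ v : V, ∑ d ∈ Finset.univ.filter (fun d : G.Dart => d.fst = v), c d.edge = 0) →
      ∃ χ : Fc φ → ZMod 2, ∀ d : G.Dart, χ (fc φ d) + χ (fc φ d.symm) = c d.edge

/-- MODULE RSP (cycle space of the vertex-face graph; uses `StLIN`). `I = G.edgeSet`, `J = G.Dart`,
`K = Fc φ ⊕ V`; `M s d = s d.edge + s (rot⁻¹ d).edge`;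
`N x (inl f) = ∑_{fc d = f} x d`, `N x (inr v) = ∑_{d.fst = v} x d`;
`N' g d = g (inl (fc d)) + g (inr d.fst)`. Adjointness is an exchange of sums.
`N (M s) = 0`: at `v`, `rot` is a bijection of the darts at `v`, so the two sums are equal. At a
face `f`: `(rot⁻¹ d).edge = (φ⁻¹ d).edge` since `φ⁻¹ d = (rot⁻¹ d).symm`, and `φ` is a bijection of the
darts of `f`; again the two sums are equal.
Kernel of `M`: `s d.edge = s (rot⁻¹ d).edge`, so `s` is constant on the edges at each vertex, and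
constant by connectivity.
Kernel of `N'`: `g (inl (fc d)) = g (inr d.fst)` for all `d`; so
`g (inr d.snd) = g (inr (φ d).fst) = g (inl (fc (φ d))) = g (inl (fc d)) = g (inr d.fst)` (`(φ d).fst = d.snd`),
`g` is constant on `V` by connectivity, hence constant.
Card: `|E| + (|F| + |V|) = 2 |E| + 2`, with `SimpleGraph.dart_card_eq_twice_card_edges`. -/
def StRSP : Prop :=
  ∀ (V : Type) [Fintype V] (G : SimpleGraph V) (rot φ : Equiv.Perm G.Dart), PlaneH V G rot φ →
    ∀ x : G.Dart → ZMod 2,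
      (∀ f : Fc φ, ∑ d ∈ Finset.univ.filter (fun d : G.Dart => fc φ d = f), x d = 0) →
      (∀ v : V, ∑ d ∈ Finset.univ.filter (fun d : G.Dart => d.fst = v), x d = 0) →
      ∃ s : Sym2 V → ZMod 2, ∀ d : G.Dart, x d = s d.edge + s (rot.symm d).edge

/-- MODULE RSF (a spanning family of the cycle space of the vertex-face graph with every dart in at
most two members; uses `StRSP`). `F` is the image of `G.edgeFinset` under `e ↦ C_e`,
`C_e d = [d.edge = e] + [(rot⁻¹ d).edge = e]`. `C_e` is in the cycle space: at `v` by the bijection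
`rot` of the darts at `v`; at a face by the bijection `φ` and `(rot⁻¹ d).edge = (φ⁻¹ d).edge`. Spanning:
`x = ∑_e s e • C_e` with `s` from `StRSP`. `C_e d ≠ 0` implies `e = d.edge` or `e = (rot⁻¹ d).edge`. -/
def StRSF : Prop :=
  ∀ (V : Type) [Fintype V] (G : SimpleGraph V) (rot φ : Equiv.Perm G.Dart), PlaneH V G rot φ →
    ∃ F : Finset (G.Dart → ZMod 2),
      (∀ x ∈ F, Cyc (fc φ) (fun d : G.Dart => d.fst) x) ∧
      (∀ x, Cyc (fc φ) (fun d : G.Dart => d.fst) x →
        x ∈ Submodule.span (ZMod 2) (F : Set (G.Dart → ZMod 2))) ∧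
      (∀ d, (F.filter (fun x => x d ≠ 0)).card ≤ 2)

/-- incidence of faces and vertices -/
def Inc {V : Type} {G : SimpleGraph V} (φ : Equiv.Perm G.Dart) (f : Fc φ) (z : V) : Prop :=
  ∃ d : G.Dart, fc φ d = f ∧ d.fst = z

/-- MODULE EHP (the hypothesis `EH` for nonempty sets of faces; uses `StEUL` and `StRSF`). For `U`, `w`
choose for every incident pair `(f, z)` a dart `δ (f, z)` with `fc = f`, `fst = z`; let `E₁` be the image
under `δ` of the finite set `P` of all `(f, z)` with `z ∈ U`, `f ∈ Dz z` (`δ` is injective on it); `A₁ = T`,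
`B₁ = U`, `w' d = w (fc d) d.fst`, `M = 12`. A subset `C ⊆ E₁` with even degrees corresponds to
`C.image (d ↦ (fc d, d.fst))`, and the hypothesis gives the weight condition. `E₁.card = ∑_{z ∈ U} |Dz z|`. -/
def StEHP : Prop :=
  ∀ (V : Type) [Fintype V] (G : SimpleGraph V) (rot φ : Equiv.Perm G.Dart), PlaneH V G rot φ →
    ∀ T : Finset (Fc φ), T.Nonempty → EH (Inc φ) T

/-- MODULE CONN (the vertex-face graph is connected). The relation
`a ~ b := ∃ P, ∀ x, bd ea eb P x = pt a x + pt b x` is an equivalence relation (`symmDiff`). The edge `d`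
shows `inl (fc d) ~ inr d.fst`. As `fc (φ d) = fc d` and `(φ d).fst = d.snd`:
`inr d.fst ~ inl (fc d) ~ inr d.snd`. `G` is connected, so all `inr v` are equivalent, and every face is
`fc d`. -/
def StCONN : Prop :=
  ∀ (V : Type) [Fintype V] (G : SimpleGraph V) (rot φ : Equiv.Perm G.Dart), PlaneH V G rot φ →
    ∀ a b : Fc φ ⊕ V, ∃ P ⊆ (Finset.univ : Finset G.Dart),
      ∀ x, bd (ea φ) (eb φ) P x = pt a x + pt b x

/-- the sign of a face -/
noncomputable def fs {V : Type} [Fintype V] {G : SimpleGraph V} (φ : Equiv.Perm G.Dart)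
    (σ : Sym2 V → ZMod 2) (f : Fc φ) : ZMod 2 :=
  ∑ d ∈ Finset.univ.filter (fun d : G.Dart => fc φ d = f), σ d.edge

/-- the sign function on the nodes of the vertex-face graph -/
noncomputable def ft {V : Type} [Fintype V] {G : SimpleGraph V} (φ : Equiv.Perm G.Dart)
    (σ : Sym2 V → ZMod 2) (x : Fc φ ⊕ V) : ZMod 2 :=
  Sum.elim (fs φ σ) (fun _ => 0) x

/-- MODULE SUM. `∑_f fs f = ∑_d σ d.edge = 0` because `d ↦ d.symm` is an involution without fixed points
(`Finset.sum_involution`). -/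
def StSUM : Prop :=
  ∀ (V : Type) [Fintype V] (G : SimpleGraph V) (φ : Equiv.Perm G.Dart) (σ : Sym2 V → ZMod 2),
    ∑ x, ft φ σ x = 0

/-- MODULE EVC (a closed trail has even degree everywhere). For `c : G.Walk v v` a trail (or a cycle):
`∑_{d.fst = u} [d.edge ∈ c.edges] = 0` in `ZMod 2`: the sum is the number of edges of `c` at `u`
(`d ↦ d.edge` is a bijection from the darts at `u` to the edges of `G` at `u`; `c.edges` has no
duplicates), which is even: `SimpleGraph.Walk.IsTrail.even_countP_edges_iff`. -/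
def StEVC : Prop :=
  ∀ (V : Type) [Fintype V] (G : SimpleGraph V) (v : V) (c : G.Walk v v), c.IsCycle →
    ∀ u : V, ∑ d ∈ Finset.univ.filter (fun d : G.Dart => d.fst = u),
      (if d.edge ∈ c.edges then (1 : ZMod 2) else 0) = 0

/-- MODULE COV (a join meets every negative cycle; uses `StEU` and `StEVC`). Suppose no `d ∈ J`
has `d.fst ∈ c.support`. Let `χ` be from `StEU` for the indicator of `c.edges`. Then
`∑_f χ f * fs f = ∑_d χ (fc d) * σ d.edge = ∑_{e ∈ edges of G} σ e * (χ (fc d_e) + χ (fc d_e.symm)) =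
∑_{e ∈ c.edges} σ e = 1` (pair `d`, `d.symm`; a convenient way: choose one dart per edge). On the other
hand `fs f = bd J (inl f) = ∑_{d ∈ J, fc d = f} 1`, so the sum is `∑_{d ∈ J} χ (fc d)`. Group by
`v = d.fst`, which is not in `c.support`: for darts `d` at such a `v`, `d.edge ∉ c.edges`, so
`χ (fc d) = χ (fc d.symm) = χ (fc (rot d))` (`fc d.symm = fc (φ d.symm) = fc (rot d)`), so
`χ ∘ fc` is constant on the darts at `v` (`SameCycle`), and the number of `d ∈ J` with `d.fst = v` is even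
(`bd J (inr v) = 0`). So the sum is `0`: contradiction. -/
def StCOV : Prop :=
  ∀ (V : Type) [Fintype V] (G : SimpleGraph V) (rot φ : Equiv.Perm G.Dart), PlaneH V G rot φ →
    ∀ (σ : Sym2 V → ZMod 2) (J : Finset G.Dart), (∀ x, bd (ea φ) (eb φ) J x = ft φ σ x) →
      ∀ (v : V) (c : G.Walk v v), c.IsCycle → (c.edges.map σ).sum = 1 →
        ∃ d ∈ J, d.fst ∈ c.support

/-- MODULE NCY (an even edge set with negative product contains a negative cycle). Let `H'` be the
spanning subgraph of `G` with `H'.Adj u v ↔ G.Adj u v ∧ s(u, v) ∈ H`. If every cycle `c` of `H'` had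
`(c.edges.map σ).sum = 0`, then `Pool.Agent.Helper16.OddPack.exists_potential` gives `ψ` with
`σ s(u, v) = ψ u + ψ v` on `H'`, and `∑_{e ∈ H} σ e = ∑_v ψ v * (number of edges of H at v) = 0`
(in the form `∑_{e ∈ H} σ e = ∑_{d, d.edge ∈ H} ψ d.fst`, every edge having two darts), a contradiction. So
some cycle `c` of `H'` has sum `1`; map it to `G` (`Walk.mapLe`; cycles, edges, support are kept). -/
def StNCY : Prop :=
  ∀ (V : Type) [Fintype V] (G : SimpleGraph V) (σ : Sym2 V → ZMod 2) (H : Finset (Sym2 V)),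
    (∀ e ∈ H, e ∈ G.edgeSet) →
    (∀ v : V, ∑ d ∈ Finset.univ.filter (fun d : G.Dart => d.fst = v),
      (if d.edge ∈ H then (1 : ZMod 2) else 0) = 0) →
    ∑ e ∈ H, σ e = 1 →
    ∃ (b : V) (C : G.Walk b b), C.IsCycle ∧ (C.edges.map σ).sum = 1 ∧ ∀ e ∈ C.edges, e ∈ H

/-- MODULE FCY (an odd closed set gives a negative cycle through its outer neighbours; uses
`StNCY`). Let `χ f = 1` if `inl f ∈ S`, else `0`; `H` the set of edges `e` of `G` with
`χ (fc d) + χ (fc d.symm) = 1` for a (both) dart `d` of `e`. Even: `∑_{d.fst = v} [d.edge ∈ H] =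
∑_{d.fst = v} (χ (fc d) + χ (fc (rot d))) = 0`, as `fc d.symm = fc (φ d.symm) = fc (rot d)` and `rot` is a
bijection of the darts at `v`. `∑_{e ∈ H} σ e = ∑_d χ (fc d) * σ d.edge = ∑_f χ f * fs f =
∑_{x ∈ S} ft x = 1`. Take `C` from `StNCY`. If `x ∈ C.support` there is an edge of `C` at `x` (cycles are
not trivial), so a dart `d` with `d.fst = x`, `d.edge ∈ H`: exactly one of `inl (fc d)`,
`inl (fc d.symm) = inl (fc (rot d))` is in `S`; both `d` and `rot d` are darts at `x`. If `inr x ∈ S` closedness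
gives both in `S`, a contradiction. So `inr x ∉ S`, and `d` or `rot d` is the dart wanted. -/
def StFCY : Prop :=
  ∀ (V : Type) [Fintype V] (G : SimpleGraph V) (rot φ : Equiv.Perm G.Dart), PlaneH V G rot φ →
    ∀ (σ : Sym2 V → ZMod 2) (S : Finset (Fc φ ⊕ V)), ∑ x ∈ S, ft φ σ x = 1 →
      (∀ d : G.Dart, eb φ d ∈ S → ea φ d ∈ S) →
      ∃ (b : V) (C : G.Walk b b), C.IsCycle ∧ (C.edges.map σ).sum = 1 ∧
        ∀ x ∈ C.support, ∃ d : G.Dart, d.fst = x ∧ ea φ d ∈ S ∧ eb φ d ∉ S

/-- a packing of `k` disjoint negative cycles exists -/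
def PackG {V : Type} (G : SimpleGraph V) (σ : Sym2 V → ZMod 2) (k : ℕ) : Prop :=
  ∃ (b : Fin k → V) (C : ∀ i : Fin k, G.Walk (b i) (b i)),
    (∀ i : Fin k, (C i).IsCycle ∧ ((C i).edges.map σ).sum = 1) ∧
    (∀ i j : Fin k, i ≠ j → ∀ x ∈ (C i).support, x ∉ (C j).support)

/-- MODULE PG (a packing in the vertex-face graph gives a packing of cycles; uses `StFCY`). Choose the
cycles by `StFCY`; if `x` is in the supports of `C i` and `C j`, `i ≠ j`, there are darts `d, d'` with
`d.fst = x = d'.fst`, `ea d ∈ S i`, `eb d ∉ S i`, `ea d' ∈ S j`, `eb d' ∉ S j`, against the last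
condition of `Pack` (`eb d = eb d'`). -/
def StPG : Prop :=
  ∀ (V : Type) [Fintype V] (G : SimpleGraph V) (rot φ : Equiv.Perm G.Dart), PlaneH V G rot φ →
    ∀ (σ : Sym2 V → ZMod 2) (q : ℕ) (S : Fin q → Finset (Fc φ ⊕ V)),
      (∀ i, ∑ x ∈ S i, ft φ σ x = 1) →
      (∀ i, ∀ d : G.Dart, eb φ d ∈ S i → ea φ d ∈ S i) →
      (∀ i j, i ≠ j → ∀ d d' : G.Dart, ea φ d ∈ S i → eb φ d ∉ S i → ea φ d' ∈ S j →
        eb φ d' ∉ S j → eb φ d ≠ eb φ d') →
      PackG G σ q

/-- MODULE PF (disjoint negative faces give disjoint negative cycles; uses `StPG`). Enumerate `F₀`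
(`Finset.equivFin`) and use the singletons `S i = {inl f}`: `ft (inl f) = fs f = 1`; no `eb d` is in
`S i`; if `ea d = inl f`, `ea d' = inl g`, `f ≠ g` and `d.fst = d'.fst = z` then `Inc f z` and
`Inc g z`, a contradiction. -/
def StPF : Prop :=
  ∀ (V : Type) [Fintype V] (G : SimpleGraph V) (rot φ : Equiv.Perm G.Dart), PlaneH V G rot φ →
    ∀ (σ : Sym2 V → ZMod 2) (F₀ : Finset (Fc φ)), (∀ f ∈ F₀, fs φ σ f = 1) →
      (∀ f ∈ F₀, ∀ g ∈ F₀, f ≠ g → ∀ z, ¬ (Inc φ f z ∧ Inc φ g z)) →
      PackG G σ F₀.card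

end

end Pool.Agent.Helper52.NF
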