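import Pool.Agent.Helper52.NF.St
import Pool.Agent.Helper52.NF.St3

/-! Assembly of the two theorems from the module statements. -/

set_option autoImplicit false

namespace Pool.Agent.Helper52.NF

open Finset

section
open Classical

/-- `Z` meets every negative cycle -/
def Hits {V : Type} (G : SimpleGraph V) (σ : Sym2 V → ZMod 2) (Z : Finset V) : Prop :=
  ∀ (v : V) (c : G.Walk v v), c.IsCycle → (c.edges.map σ).sum = 1 → ∃ x ∈ Z, x ∈ c.support

theorem packG_le {V : Type} [Fintype V] {G : SimpleGraph V} {σ : Sym2 V → ZMod 2} {k : ℕ}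
    (h : PackG G σ k) : k ≤ Fintype.card V := by
  obtain ⟨b, C, _, hdis⟩ := h
  have hinj : Function.Injective b := by
    intro i j hij
    by_contra hne
    refine hdis i j hne (b i) (C i).start_mem_support ?_
    rw [hij]; exact (C j).start_mem_support
  simpa using Fintype.card_le_of_injective b hinj

theorem packG_zero {V : Type} (G : SimpleGraph V) (σ : Sym2 V → ZMod 2) : PackG G σ 0 :=
  ⟨fun i => i.elim0, fun i => i.elim0, fun i => i.elim0, fun i => i.elim0⟩

theorem image_card_inst {A K : Type} (i j : DecidableEq K) (s : Finset A) (f : A → K) :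
    (@Finset.image A K i f s).card = (@Finset.image A K j f s).card := by
  have h : i = j := Subsingleton.elim _ _
  subst h
  rfl

/-- a maximum packing -/
theorem exists_max {V : Type} [Fintype V] (G : SimpleGraph V) (σ : Sym2 V → ZMod 2) :
    ∃ k, PackG G σ k ∧ ∀ q, PackG G σ q → q ≤ k := by
  refine ⟨Nat.findGreatest (PackG G σ) (Fintype.card V), ?_, ?_⟩
  · exact Nat.findGreatest_spec (P := PackG G σ) (m := 0) (Nat.zero_le _) (packG_zero G σ)
  · intro q hq
    exact Nat.le_findGreatest (packG_le hq) hq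

theorem bounds (hXA : StXA) (hTJ : StTJ) (hCONN : StCONN) (hSUM : StSUM) (hPG : StPG)
    (hCOV : StCOV) (V : Type) [Fintype V] (G : SimpleGraph V) (rot φ : Equiv.Perm G.Dart)
    (hP : PlaneH V G rot φ) (σ : Sym2 V → ZMod 2) (X : Finset V) :
    ∃ ρ : Fc φ ⊕ V → Fc φ ⊕ V, (∀ d : G.Dart, d.fst ∈ X → ρ (ea φ d) = ρ (eb φ d)) ∧
      ∃ Z : Finset V, Hits G σ Z ∧ ∃ q, PackG G σ q ∧
        (2 * Z.card + 2 ≤ 2 * X.card +
          ((Finset.univ.filter (fun u => ft φ σ u = 1)).image ρ).card + 2 * q ∨ Z ⊆ X) := by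
  have hdis : Disjoint ((Finset.univ : Finset (Fc φ)).image (Sum.inl : Fc φ → Fc φ ⊕ V))
      ((Finset.univ : Finset V).image (Sum.inr : V → Fc φ ⊕ V)) := by
    rw [Finset.disjoint_left]
    intro a ha hb
    obtain ⟨f, _, rfl⟩ := Finset.mem_image.mp ha
    obtain ⟨v, _, h⟩ := Finset.mem_image.mp hb
    exact absurd h (by simp)
  have hX : X.image (Sum.inr : V → Fc φ ⊕ V) ⊆ (Finset.univ : Finset V).image Sum.inr :=
    Finset.image_subset_image (Finset.subset_univ X)
  obtain ⟨J₀, _, hJ₀⟩ := hTJ G.Dart (Fc φ ⊕ V) (ea φ) (eb φ) Finset.univ (ft φ σ)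
    (hCONN V G rot φ hP) (hSUM V G φ σ)
  obtain ⟨ρ, hρ, J, _, hJ, q, S, hS, hcase⟩ := hXA G.Dart (Fc φ ⊕ V) (ea φ) (eb φ) Finset.univ
    ((Finset.univ : Finset (Fc φ)).image Sum.inl) ((Finset.univ : Finset V).image Sum.inr)
    (X.image Sum.inr) (ft φ σ) hdis hX
    (fun d _ => ⟨Finset.mem_image_of_mem _ (Finset.mem_univ _),
      Finset.mem_image_of_mem _ (Finset.mem_univ _)⟩)
    (fun v hv => by
      cases v with
      | inl f => exact absurd (Finset.mem_image_of_mem _ (Finset.mem_univ _)) hv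
      | inr v => rfl)
    ⟨J₀, Finset.subset_univ _, hJ₀⟩
  refine ⟨ρ, fun d hd => hρ d (Finset.mem_univ _) (Finset.mem_image_of_mem _ hd),
    J.image (fun d => d.fst), ?_, q, ?_, ?_⟩
  · intro v c hc hs
    obtain ⟨d, hd, hdc⟩ := hCOV V G rot φ hP σ J hJ v c hc hs
    exact ⟨d.fst, Finset.mem_image_of_mem _ hd, hdc⟩
  · refine hPG V G rot φ hP σ q S hS.1 (fun i d h => hS.2.1 i d (Finset.mem_univ _) h) ?_
    intro i j hij d d' h1 h2 h3 h4
    exact hS.2.2.2 i j hij d (Finset.mem_univ _) d' (Finset.mem_univ _) h1 h2 h3 h4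
  · have him : J.image (eb φ) = (J.image (fun d => d.fst)).image (Sum.inr : V → Fc φ ⊕ V) := by
      rw [Finset.image_image]; rfl
    have hc1 : (J.image (eb φ)).card = (J.image (fun d : G.Dart => d.fst)).card := by
      rw [him, Finset.card_image_of_injective _ Sum.inr_injective]
    have hc2 : (X.image (Sum.inr : V → Fc φ ⊕ V)).card = X.card :=
      Finset.card_image_of_injective _ Sum.inr_injective
    rcases hcase with h | h
    · left
      rw [hc1, hc2] at h
      exact h
    · right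
      intro v hv
      obtain ⟨d, hd, rfl⟩ := Finset.mem_image.mp hv
      have := h (Finset.mem_image_of_mem (eb φ) hd)
      obtain ⟨x, hx, hxd⟩ := Finset.mem_image.mp this
      have : x = d.fst := Sum.inr_injective hxd
      exact this ▸ hx

/-- the additive gap: both bounds -/
theorem gap (hXA : StXA) (hTJ : StTJ) (hCONN : StCONN) (hSUM : StSUM) (hPG : StPG)
    (hPF : StPF) (hCOV : StCOV) (hGRD : StGRD) (hLFA : StLFA) (hEHP : StEHP)
    (V : Type) [Fintype V] (G : SimpleGraph V)
    (rot φ : Equiv.Perm G.Dart) (hP : PlaneH V G rot φ) (σ : Sym2 V → ZMod 2) :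
    ∃ k, PackG G σ k ∧
      (∀ F₁ : Finset (Fc φ), (∀ f ∈ F₁, fs φ σ f = 1) →
        (∀ f ∈ F₁, ∀ g ∈ F₁, f ≠ g → ∀ z, ¬ (Inc φ f z ∧ Inc φ g z)) → F₁.card ≤ k) ∧
      ∃ (Z : Finset V) (F₀ : Finset (Fc φ)), Hits G σ Z ∧ (∀ f ∈ F₀, fs φ σ f = 1) ∧
        (∀ f ∈ F₀, ∀ g ∈ F₀, f ≠ g → ∀ z, ¬ (Inc φ f z ∧ Inc φ g z)) ∧
        Z.card ≤ k + 4 * F₀.card - 1 ∧
        2 * Z.card ≤ 2 * k + ((Finset.univ.filter (fun f : Fc φ => fs φ σ f = 1)).card - 2) := by
  obtain ⟨k, hk, hmax⟩ := exists_max G σ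
  refine ⟨k, hk, fun F₀ h1 h2 => hmax _ (hPF V G rot φ hP σ F₀ h1 h2), ?_⟩
  obtain ⟨F₀, X, hF₀, hne, hdis, hcount⟩ := hGRD (Fc φ) V (Inc φ)
    (Finset.univ.filter (fun f : Fc φ => fs φ σ f = 1))
    (fun T' _ hT' => hLFA (Fc φ) V (Inc φ) T' (hEHP V G rot φ hP T' hT') hT')
  have hneg : ∀ f ∈ F₀, fs φ σ f = 1 := fun f hf => (Finset.mem_filter.mp (hF₀ hf)).2
  -- the cover from the greedy set
  have hZ2 : ∃ Z : Finset V, Hits G σ Z ∧ Z.card ≤ k + 4 * F₀.card - 1 := by
    obtain ⟨ρ, hρ, Z, hZ, q, hq, hcase⟩ := bounds hXA hTJ hCONN hSUM hPG hCOV V G rot φ hP σ X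
    refine ⟨Z, hZ, ?_⟩
    have hqk := hmax q hq
    have hc := hcount (Fc φ ⊕ V) (fun f => ρ (Sum.inl f)) (by
      rintro z hz f g ⟨d, rfl, rfl⟩ ⟨d', rfl, hd'⟩
      have h1 := hρ d hz
      have h2 := hρ d' (hd'.symm ▸ hz)
      change ρ (ea φ d) = ρ (ea φ d')
      rw [h1, h2]
      unfold eb
      rw [hd'])
    have himg : (Finset.univ.filter (fun u => ft φ σ u = 1)).image ρ =
        (Finset.univ.filter (fun f : Fc φ => fs φ σ f = 1)).image (fun f => ρ (Sum.inl f)) := by
      ext u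
      simp only [Finset.mem_filter, Finset.mem_univ, true_and, Finset.mem_image]
      constructor
      · rintro ⟨w, hw, rfl⟩
        cases w with
        | inl f => exact ⟨f, by simpa [ft] using hw, rfl⟩
        | inr v => simp [ft] at hw
      · rintro ⟨f, hf, rfl⟩
        exact ⟨Sum.inl f, by simpa [ft] using hf, rfl⟩
    have hcc := image_card_inst (fun a b => Classical.propDecidable (a = b)) inferInstance
      (Finset.univ.filter (fun f : Fc φ => fs φ σ f = 1)) (fun f => ρ (Sum.inl f))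
    rcases hcase with h | h
    · rw [himg] at h
      omega
    · have hZX : Z.card ≤ X.card := Finset.card_le_card h
      rcases (Finset.univ.filter (fun f : Fc φ => fs φ σ f = 1)).eq_empty_or_nonempty with he | hn
      · have : F₀.card = 0 := by
          rw [Finset.card_eq_zero]; rw [he] at hF₀; exact Finset.subset_empty.mp hF₀
        omega
      · have h1 := (hne hn).card_pos
        have h2 : 0 < ((Finset.univ.filter (fun f : Fc φ => fs φ σ f = 1)).image
            (fun f => ρ (Sum.inl f))).card := (hn.image _).card_pos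
        omega
  -- the cover from the empty set
  have hZ1 : ∃ Z : Finset V, Hits G σ Z ∧
      2 * Z.card ≤ 2 * k + ((Finset.univ.filter (fun f : Fc φ => fs φ σ f = 1)).card - 2) := by
    obtain ⟨ρ, _, Z, hZ, q, hq, hcase⟩ := bounds hXA hTJ hCONN hSUM hPG hCOV V G rot φ hP σ ∅
    refine ⟨Z, hZ, ?_⟩
    have hqk := hmax q hq
    rcases hcase with h | h
    · have h1 : ((Finset.univ.filter (fun u => ft φ σ u = 1)).image ρ).card ≤
          (Finset.univ.filter (fun f : Fc φ => fs φ σ f = 1)).card := by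
        refine Finset.card_image_le.trans ?_
        have : (Finset.univ.filter (fun u : Fc φ ⊕ V => ft φ σ u = 1)) =
            (Finset.univ.filter (fun f : Fc φ => fs φ σ f = 1)).image Sum.inl := by
          ext u
          simp only [Finset.mem_filter, Finset.mem_univ, true_and, Finset.mem_image]
          cases u with
          | inl f => simp [ft]
          | inr v => simp [ft]
        rw [this]
        exact Finset.card_image_le
      simp only [Finset.card_empty, mul_zero, zero_add] at h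
      omega
    · have : Z.card = 0 := by rw [Finset.card_eq_zero]; exact Finset.subset_empty.mp h
      omega
  obtain ⟨Z2, hH2, hc2⟩ := hZ2
  obtain ⟨Z1, hH1, hc1⟩ := hZ1
  rcases le_total Z1.card Z2.card with h | h
  · exact ⟨Z1, F₀, hH1, hneg, hdis, h.trans hc2, hc1⟩
  · exact ⟨Z2, F₀, hH2, hneg, hdis, hc2, (Nat.mul_le_mul_left 2 h).trans hc1⟩

end

end Pool.Agent.Helper52.NF
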